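import Pool.Agent.Helper653_Tor.Spec
import Pool.Agent.TH6.LF.Bar

set_option autoImplicit false
set_option linter.unusedSectionVars false

open scoped InnerProductSpace Topology

namespace Pool.Agent.V8H82.FK

open MeasureTheory Pool.Agent.Helper993.FK Pool.Agent.Helper993.Delta Pool.Agent.Helper653_Tor

section gen

variable {H : Type} [NormedAddCommGroup H] [InnerProductSpace ℂ H] [CompleteSpace H] {r : ℕ}
  (e : Fin r → H) (T : H →L[ℂ] H) (hT : 0 ≤ T)

theorem traceVal_zero' : traceVal e T (fun _ => (0 : ℝ)) = 0 := by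
  unfold traceVal
  have h : cfc (fun _ : ℝ => (0 : ℝ)) T = 0 := by
    exact cfc_const_zero ℝ T
  rw [h]
  simp

include hT in
theorem ae_mem {M : ℕ} (hM : ‖T‖ ≤ M) :
    ∀ᵐ x ∂(spectralMeasure e T), 0 ≤ x ∧ x ≤ (M : ℝ) := by
  set φ : ℝ → ℝ := fun x => max 0 (x - M) + max 0 (-x) with hφ
  have hφc : Continuous φ := by fun_prop
  have hφ0 : ∀ x, 0 ≤ φ x := fun x => add_nonneg (le_max_left _ _) (le_max_left _ _)
  have h1 : ∀ N : ℕ, M ≤ N → ∀ᵐ x ∂(spectralMeasure e T), φ x * cut N x = 0 := by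
    intro N hN
    have h2 := cc_integral e T hT (hM.trans (by exact_mod_cast hN)) φ hφc
    have h3 : traceVal e T φ = 0 := by
      rw [traceVal_congr e T hT hM (g := fun _ => (0 : ℝ)), traceVal_zero']
      intro x hx
      have a1 : max 0 (x - M) = 0 := max_eq_left (by linarith [hx.2])
      have a2 : max 0 (-x) = 0 := max_eq_left (by linarith [hx.1])
      rw [hφ]
      simp only [a1, a2, add_zero]
    rw [h3] at h2
    have h4 := (integral_eq_zero_iff_of_nonneg
      (fun x => mul_nonneg (hφ0 x) (cut_nonneg N x)) (cc_int e T N φ hφc)).1 h2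
    exact h4
  have h5 : ∀ᵐ x ∂(spectralMeasure e T), ∀ N : ℕ, M ≤ N → φ x * cut N x = 0 := by
    rw [ae_all_iff]
    intro N
    by_cases hN : M ≤ N
    · filter_upwards [h1 N hN] with x hx _ using hx
    · exact Filter.Eventually.of_forall (fun x h => absurd h hN)
  filter_upwards [h5] with x hx
  obtain ⟨m, hm⟩ := exists_nat_ge |x|
  have hm' : |x| ≤ ((max M m : ℕ) : ℝ) := hm.trans (by exact_mod_cast le_max_right _ _)
  have h6 := hx (max M m) (le_max_left _ _)
  rw [cut_eq_one hm', mul_one] at h6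
  have h7 : 0 ≤ max 0 (x - (M : ℝ)) := le_max_left _ _
  have h8 : 0 ≤ max 0 (-x) := le_max_left _ _
  have h9 : max 0 (x - (M : ℝ)) + max 0 (-x) = 0 := h6
  have h10 : x - M ≤ max 0 (x - (M : ℝ)) := le_max_right _ _
  have h11 : -x ≤ max 0 (-x) := le_max_right _ _
  constructor <;> linarith

include hT in
theorem finite_spec : IsFiniteMeasure (spectralMeasure e T) := by
  obtain ⟨M, hM⟩ := exists_nat_ge ‖T‖
  have hreg : Measure.Regular (spectralMeasure e T) := by
    unfold spectralMeasure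
    infer_instance
  have h1 := ae_mem e T hT hM
  have h2 : (spectralMeasure e T) (Set.Icc 0 (M : ℝ))ᶜ = 0 := by
    rw [ae_iff] at h1
    exact h1
  refine ⟨?_⟩
  have h3 : (spectralMeasure e T) Set.univ ≤
      (spectralMeasure e T) (Set.Icc 0 (M : ℝ)) + (spectralMeasure e T) (Set.Icc 0 (M : ℝ))ᶜ := by
    rw [← Set.union_compl_self (Set.Icc 0 (M : ℝ))]
    exact measure_union_le _ _
  rw [h2, add_zero] at h3
  exact h3.trans_lt (isCompact_Icc.measure_lt_top)

include hT in
theorem integral_spec (f : ℝ → ℝ) (hf : Continuous f) :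
    ∫ x, f x ∂(spectralMeasure e T) = traceVal e T f := by
  obtain ⟨M, hM⟩ := exists_nat_ge ‖T‖
  rw [← cc_integral e T hT hM f hf]
  refine integral_congr_ae ?_
  filter_upwards [ae_mem e T hT hM] with x hx
  rw [cut_eq_one (by rw [abs_of_nonneg hx.1]; exact hx.2), mul_one]

end gen

theorem bar_eq_inv' {G : Type} [Group G] (a : MonoidAlgebra ℤ G) : TH6.LF.bar a = inv' a := by
  induction a using MonoidAlgebra.induction_linear with
  | zero => rw [TH6.LF.bar_zero, inv'_zero]
  | add a b h1 h2 => rw [TH6.LF.bar_add, inv'_add, h1, h2]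
  | single g c => rw [TH6.LF.bar_single, inv'_single]

theorem adj_eq {G : Type} [Group G] {r s : ℕ} (A : Matrix (Fin r) (Fin s) (MonoidAlgebra ℤ G)) :
    TH6.LF.adj A = Pool.Agent.Helper653_Tor.adj A := by
  ext1 i j
  rw [TH6.LF.adj_apply, Pool.Agent.Helper653_Tor.adj_apply, bar_eq_inv']

/-- P5 -/
theorem P5 {G : Type} [Group G] {r : ℕ} (A : Matrix (Fin r) (Fin r) (MonoidAlgebra ℤ G)) :
    IsFiniteMeasure (specMeas unitVec (rMul (A.map toQ))) ∧
    (∃ Λ : ℝ, ∀ᵐ x ∂(specMeas unitVec (rMul (A.map toQ))), 0 ≤ x ∧ x ≤ Λ) ∧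
    ∀ k : ℕ, ∫ x, x ^ k ∂(specMeas unitVec (rMul (A.map toQ))) =
      ∑ i, ((((A * TH6.LF.adj A) ^ k) i i).coeff 1 : ℝ) := by
  have hT : 0 ≤ ContinuousLinearMap.adjoint (rMul (A.map toQ)) ∘L rMul (A.map toQ) := by
    rw [ContinuousLinearMap.nonneg_iff_isPositive]
    exact ContinuousLinearMap.isPositive_adjoint_comp_self _
  refine ⟨finite_spec _ _ hT, ?_, ?_⟩
  · obtain ⟨M, hM⟩ := exists_nat_ge ‖ContinuousLinearMap.adjoint (rMul (A.map toQ)) ∘L
      rMul (A.map toQ)‖
    exact ⟨M, ae_mem _ _ hT hM⟩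
  · intro k
    have h1 : ∫ x, x ^ k ∂(specMeas unitVec (rMul (A.map toQ))) =
        traceVal unitVec (ContinuousLinearMap.adjoint (rMul (A.map toQ)) ∘L rMul (A.map toQ))
          (fun x => x ^ k) := integral_spec _ _ hT (fun x => x ^ k) (by fun_prop)
    rw [h1, adj_eq]
    rw [rMul_gram] at hT ⊢
    have h2 := traceVal_poly ((A * Pool.Agent.Helper653_Tor.adj A).map toQ) hT
      (Polynomial.X ^ k)
    have h3 : (fun x : ℝ => (Polynomial.X ^ k : Polynomial ℝ).eval x) = fun x => x ^ k := by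
      ext x
      simp
    rw [h3] at h2
    rw [h2, Polynomial.natDegree_X_pow, Finset.sum_eq_single k]
    · rw [Polynomial.coeff_X_pow_self, one_mul]
      have h4 : ((A * Pool.Agent.Helper653_Tor.adj A).map toQ) ^ k =
          ((A * Pool.Agent.Helper653_Tor.adj A) ^ k).map toQ := by
        clear * -
        induction k with
        | zero =>
          rw [pow_zero, pow_zero]
          exact (Matrix.map_one _ (map_zero (MonoidAlgebra.mapRingHom G (Int.castRingHom ℚ)))
            (map_one (MonoidAlgebra.mapRingHom G (Int.castRingHom ℚ)))).symm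
        | succ m ih =>
          rw [pow_succ, pow_succ, ih]
          exact (toQ_mul _ _).symm
      rw [h4]
      unfold trc
      refine Finset.sum_congr rfl fun i _ => ?_
      rw [Matrix.map_apply, toQ_coeff]
      push_cast
      rfl
    · intro m _ hm
      rw [Polynomial.coeff_X_pow, if_neg hm, zero_mul]
    · intro h
      exact absurd (Finset.mem_range.2 (Nat.lt_succ_self k)) h

end Pool.Agent.V8H82.FK
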