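import Pool.Agent.V8H82.FK.Spec
import Pool.Agent.V8H82.FK.P5
import Pool.Agent.V8H82.HT.Ker

set_option autoImplicit false
set_option linter.unusedSectionVars false

/-!
# The Fuglede-Kadison determinant
-/

open scoped InnerProductSpace Topology

namespace Pool.Agent.V8H82.FK

open MeasureTheory Pool.Agent.Helper993.FK Pool.Agent.Helper993.Delta

section
variable {G : Type} [Group G] {r : ℕ} (A : Matrix (Fin r) (Fin r) (MonoidAlgebra ℤ G))

theorem isSpectral_specMeas :
    IsSpectral (A * TH6.LF.adj A) (specMeas unitVec (rMul (A.map toQ))) := P5 A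

/-- the logarithm of the determinant -/
theorem log_fkDet
    (h : IntegrableOn Real.log (Set.Ioi 0) (specMeas unitVec (rMul (A.map toQ)))) :
    0 < fkDet (rMul (A.map toQ)) ∧ Real.log (fkDet (rMul (A.map toQ))) =
      1 / 2 * ∫ x in Set.Ioi 0, Real.log x ∂(specMeas unitVec (rMul (A.map toQ))) := by
  unfold fkDet detOf
  rw [if_pos h]
  exact ⟨Real.exp_pos _, Real.log_exp _⟩

/-- no mass at `0` for injective operators -/
theorem mass_zero (hinj : ∀ v, rMul (A.map toQ) v = 0 → v = 0) :
    specMeas unitVec (rMul (A.map toQ)) {0} = 0 := by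
  have hfin := (P5 A).1
  set f := rMul (A.map toQ) with hf
  set T := (ContinuousLinearMap.adjoint f) ∘L f with hT
  have hT0 : 0 ≤ T := adjoint_comp_nonneg _
  have hinj' : ∀ v, T v = 0 → v = 0 := fun v hv => hinj v (ker_adjoint_comp _ v hv)
  have hb : ∀ η : ℝ, 0 < η → ∃ δ : ℝ, 0 < δ ∧ traceVal unitVec T (bump δ) ≤ η := fun _ hη =>
    bump_small unitVec (fun i => (norm_unitVec i).le) T hT0 hinj' hη
  obtain ⟨N, hN⟩ := exists_nat_ge ‖T‖
  have h1 := Pool.Agent.Helper653_Tor.iic_zero unitVec T hT0 hb hN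
  change spectralMeasure unitVec T {0} = 0
  have hfin' : IsFiniteMeasure (spectralMeasure unitVec T) := hfin
  have hi : Integrable (fun x => cut N x) (spectralMeasure unitVec T) := by
    have := Pool.Agent.Helper653_Tor.cc_int unitVec T N (fun _ => 1) continuous_const
    simpa using this
  have h2 : ∫ x in ({0} : Set ℝ), cut N x ∂(spectralMeasure unitVec T) ≤
      ∫ x in Set.Iic (0 : ℝ), cut N x ∂(spectralMeasure unitVec T) := by
    refine setIntegral_mono_set hi.integrableOn ?_ ?_
    · exact Filter.Eventually.of_forall fun x => cut_nonneg N x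
    · refine Filter.Eventually.of_forall fun x hx => ?_
      have hx' : x = 0 := hx
      rw [hx']
      exact Set.mem_Iic.2 (le_refl (0 : ℝ))
  rw [h1] at h2
  have h3 : ∫ x in ({0} : Set ℝ), cut N x ∂(spectralMeasure unitVec T) =
      (spectralMeasure unitVec T {0}).toReal := by
    rw [integral_singleton, cut_eq_one (by simp), smul_eq_mul, mul_one]
    rfl
  rw [h3] at h2
  have h4 := le_antisymm h2 ENNReal.toReal_nonneg
  rcases (ENNReal.toReal_eq_zero_iff _).1 h4 with h5 | h5
  · exact h5
  · exact absurd h5 (measure_ne_top _ _)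

end

/-- the condition on kernels for `1 × 1` matrices, indexed by `Fin 1` -/
theorem kerCond_fin {G : Type} [Group G] (a : MonoidAlgebra ℤ G)
    (h : Pool.Agent.V8H82.HT.KerCond (fun _ _ => a : Matrix Unit Unit (MonoidAlgebra ℤ G))) :
    Pool.Agent.V8H82.HT.KerCond (fun _ _ => a : Matrix (Fin 1) (Fin 1) (MonoidAlgebra ℤ G)) := by
  intro X _ _ v hv p
  have key : ∀ b : MonoidAlgebra ℤ G, ∀ x : X,
      ∑ q : X × Fin 1, Pool.Agent.Q181.TG.reg X
        (fun _ _ => b : Matrix (Fin 1) (Fin 1) (MonoidAlgebra ℤ G)) (x, 0) q * v q =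
      ∑ q : X × Unit, Pool.Agent.Q181.TG.reg X
        (fun _ _ => b : Matrix Unit Unit (MonoidAlgebra ℤ G)) (x, ()) q * v (q.1, 0) := by
    intro b x
    rw [Fintype.sum_prod_type, Fintype.sum_prod_type]
    refine Finset.sum_congr rfl fun y _ => ?_
    rw [Fin.sum_univ_one, Fintype.sum_unique]
    rfl
  have h1 := h X (fun q => v (q.1, 0)) (fun q => by
    have h2 := hv (q.1, 0)
    have h3 := key (a + TH6.LF.bar a) q.1
    rw [← h2]
    exact h3.symm) (p.1, ())
  have h4 := key a p.1
  have h5 : p = (p.1, 0) := Prod.ext rfl (Subsingleton.elim _ _)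
  rw [h5]
  rw [h4]
  exact h1

end Pool.Agent.V8H82.FK
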