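import Mathlib
import Pool.Agent.V8H36.LS.Ser

set_option autoImplicit false

namespace Pool.Agent.V8H82.FK

open Finset Matrix MeasureTheory Filter Topology

theorem P1_nonneg_log {l : ℝ} (h0 : 0 ≤ l) (h1 : l ≤ 1 / 2) :
    Real.log (1 - l) ≤ 0 ∧ 0 ≤ Real.log (1 - l) + 2 * l := by
  have hp : 0 < 1 - l := by linarith
  refine ⟨Real.log_nonpos hp.le (by linarith), ?_⟩
  have h2 : Real.log (1 - l)⁻¹ ≤ (1 - l)⁻¹ - 1 := Real.log_le_sub_one_of_pos (inv_pos.2 hp)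
  rw [Real.log_inv] at h2
  have h3 : (1 - l)⁻¹ - 1 ≤ 2 * l := by
    rw [sub_le_iff_le_add, inv_le_comm₀ hp (by linarith)]
    rw [inv_le_comm₀ (by linarith) hp]
    rw [inv_le_iff_one_le_mul₀ hp]
    nlinarith
  linarith

/-- P1 -/
theorem P1 {Y : Type} [Fintype Y] [DecidableEq Y] (A R : Matrix Y Y ℝ) (s : ℝ) (hs : 0 < s)
    (hA : ∀ v : Y → ℝ, 0 ≤ v ⬝ᵥ (A *ᵥ v)) (hR : (A + s • (1 : Matrix Y Y ℝ)) * R = 1) :
    0 < (A * Aᵀ + (s ^ 2) • (1 : Matrix Y Y ℝ)).det ∧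
    Real.log (A * Aᵀ + (s ^ 2) • (1 : Matrix Y Y ℝ)).det ≤
      2 * Real.log |(A + s • (1 : Matrix Y Y ℝ)).det| ∧
    2 * Real.log |(A + s • (1 : Matrix Y Y ℝ)).det| ≤
      Real.log (A * Aᵀ + (s ^ 2) • (1 : Matrix Y Y ℝ)).det +
        4 * ∑ y, (s * R y y - s ^ 2 * ∑ z, R y z ^ 2) := by
  set M : Matrix Y Y ℝ := A + s • (1 : Matrix Y Y ℝ) with hM
  have hR' : R * M = 1 := mul_eq_one_comm.1 hR
  have hMT : Mᵀ = Aᵀ + s • (1 : Matrix Y Y ℝ) := by
    rw [hM, transpose_add, transpose_smul, transpose_one]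
  have hRT : Mᵀ * Rᵀ = 1 := by rw [← transpose_mul, hR', transpose_one]
  set N : Matrix Y Y ℝ := s • (R * (A + Aᵀ) * Rᵀ) with hN
  have hNs : Nᵀ = N := by
    rw [hN, transpose_smul, transpose_mul, transpose_mul, transpose_transpose, transpose_add,
      transpose_transpose, add_comm Aᵀ A, Matrix.mul_assoc]
  have hquad : ∀ v : Y → ℝ, v ⬝ᵥ (N *ᵥ v) = 2 * s * ((Rᵀ *ᵥ v) ⬝ᵥ (A *ᵥ (Rᵀ *ᵥ v))) := by
    intro v
    have e1 : N *ᵥ v = s • (R *ᵥ ((A + Aᵀ) *ᵥ (Rᵀ *ᵥ v))) := by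
      rw [hN, smul_mulVec, ← mulVec_mulVec, ← mulVec_mulVec]
    rw [e1, dotProduct_smul, dotProduct_mulVec, ← mulVec_transpose, add_mulVec, dotProduct_add]
    have e2 : (Rᵀ *ᵥ v) ⬝ᵥ (Aᵀ *ᵥ (Rᵀ *ᵥ v)) = (Rᵀ *ᵥ v) ⬝ᵥ (A *ᵥ (Rᵀ *ᵥ v)) := by
      rw [dotProduct_mulVec, vecMul_transpose, dotProduct_comm]
    rw [e2, smul_eq_mul]
    ring
  have hv : ∀ v : Y → ℝ, v = Aᵀ *ᵥ (Rᵀ *ᵥ v) + s • (Rᵀ *ᵥ v) := by
    intro v
    have e : Mᵀ *ᵥ (Rᵀ *ᵥ v) = v := by rw [mulVec_mulVec, hRT, one_mulVec]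
    rw [hMT, add_mulVec, smul_mulVec, one_mulVec] at e
    exact e.symm
  have h0 : ∀ v : Y → ℝ, 0 ≤ v ⬝ᵥ (N *ᵥ v) := by
    intro v
    rw [hquad]
    have := hA (Rᵀ *ᵥ v)
    positivity
  have h1 : ∀ v : Y → ℝ, v ⬝ᵥ (N *ᵥ v) ≤ (1 / 2) * ∑ z, v z ^ 2 := by
    intro v
    rw [hquad]
    set w := Rᵀ *ᵥ v with hw
    set u := Aᵀ *ᵥ w with hu
    have e2 : w ⬝ᵥ (A *ᵥ w) = ∑ z, w z * u z := by
      rw [dotProduct_mulVec, ← mulVec_transpose, dotProduct]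
      exact Finset.sum_congr rfl fun z _ => by rw [mul_comm]
    have e3 : ∀ z, v z = u z + s * w z := by
      intro z
      exact congrFun (hv v) z
    rw [e2, Finset.mul_sum, Finset.mul_sum]
    refine Finset.sum_le_sum fun z _ => ?_
    rw [e3 z]
    nlinarith [sq_nonneg (u z - s * w z)]
  obtain ⟨V, l, hV1, hV2, hV3, hl⟩ := Pool.Agent.V8H36.LS.diag N hNs (1 / 2) h0 h1
  have key : R * (A * Aᵀ + (s ^ 2) • (1 : Matrix Y Y ℝ)) * Rᵀ = (1 : ℝ) • (1 : Matrix Y Y ℝ) - N := by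
    have e1 : A * Aᵀ + (s ^ 2) • (1 : Matrix Y Y ℝ) = M * Mᵀ - s • (A + Aᵀ) := by
      rw [hMT, hM, Matrix.add_mul, Matrix.mul_add, Matrix.mul_add, Matrix.smul_mul,
        Matrix.mul_smul, Matrix.smul_mul, Matrix.mul_smul, Matrix.mul_one, Matrix.one_mul,
        Matrix.one_mul, smul_add, smul_smul, sq]
      abel
    have e2 : R * (M * Mᵀ) * Rᵀ = 1 := by
      rw [← Matrix.mul_assoc, hR', Matrix.one_mul, hRT]
    rw [e1, Matrix.mul_sub, Matrix.sub_mul, e2, one_smul, hN, Matrix.mul_smul, Matrix.smul_mul]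
  have hdet : R.det * (A * Aᵀ + (s ^ 2) • (1 : Matrix Y Y ℝ)).det * R.det = ∏ j, (1 - l j) := by
    have := congrArg Matrix.det key
    rw [hV3, Pool.Agent.V8H36.LS.det_diag V l hV1 1, Matrix.det_mul, Matrix.det_mul,
      Matrix.det_transpose] at this
    exact this
  have hMR : M.det * R.det = 1 := by rw [← Matrix.det_mul, hR, Matrix.det_one]
  have hMne : M.det ≠ 0 := fun h => by rw [h, zero_mul] at hMR; exact zero_ne_one hMR
  have hlp : ∀ j, 0 < 1 - l j := fun j => by have := (hl j).2; linarith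
  have hprod : 0 < ∏ j, (1 - l j) := Finset.prod_pos fun j _ => hlp j
  have hD : (A * Aᵀ + (s ^ 2) • (1 : Matrix Y Y ℝ)).det = M.det ^ 2 * ∏ j, (1 - l j) := by
    rw [← hdet]
    calc (A * Aᵀ + (s ^ 2) • (1 : Matrix Y Y ℝ)).det
        = (M.det * R.det) * (M.det * R.det) * (A * Aᵀ + (s ^ 2) • (1 : Matrix Y Y ℝ)).det := by
          rw [hMR]; ring
      _ = _ := by ring
  have hlog : Real.log (A * Aᵀ + (s ^ 2) • (1 : Matrix Y Y ℝ)).det =
      2 * Real.log |M.det| + ∑ j, Real.log (1 - l j) := by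
    rw [hD, Real.log_mul (pow_ne_zero 2 hMne) hprod.ne', Real.log_pow, Real.log_abs,
      Real.log_prod fun j _ => (hlp j).ne']
    norm_num
  have htr : ∑ j, l j = 2 * ∑ y, (s * R y y - s ^ 2 * ∑ z, R y z ^ 2) := by
    have e1 : N.trace = ∑ j, l j := by
      rw [hV3]; exact Pool.Agent.V8H36.LS.trace_diag V l hV2
    have e2 : R * A = 1 - s • R := by
      rw [hM, Matrix.mul_add, Matrix.mul_smul, Matrix.mul_one] at hR'
      rw [← hR', add_sub_cancel_right]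
    have e3 : R * A * Rᵀ = Rᵀ - s • (R * Rᵀ) := by
      rw [e2, Matrix.sub_mul, Matrix.one_mul, Matrix.smul_mul]
    have e4 : R * Aᵀ * Rᵀ = R - s • (R * Rᵀ) := by
      have := congrArg Matrix.transpose e3
      rw [transpose_mul, transpose_mul, transpose_transpose, transpose_sub, transpose_smul,
        transpose_mul, transpose_transpose, ← Matrix.mul_assoc] at this
      exact this
    have e5 : N.trace = s * (R.trace - s * (R * Rᵀ).trace + (R.trace - s * (R * Rᵀ).trace)) := by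
      rw [hN, Matrix.mul_add, Matrix.add_mul, e3, e4, trace_smul, trace_add, trace_sub, trace_sub,
        trace_smul, trace_transpose, smul_eq_mul, smul_eq_mul]
    have e6 : (R * Rᵀ).trace = ∑ y, ∑ z, R y z ^ 2 := by
      rw [Matrix.trace]
      refine Finset.sum_congr rfl fun y _ => ?_
      rw [Matrix.diag_apply, Matrix.mul_apply]
      exact Finset.sum_congr rfl fun z _ => by rw [transpose_apply, sq]
    rw [← e1, e5, e6, Finset.sum_sub_distrib, ← Finset.mul_sum, ← Finset.mul_sum]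
    have e7 : R.trace = ∑ y, R y y := rfl
    rw [e7]
    ring
  refine ⟨?_, ?_, ?_⟩
  · rw [hD]
    have : 0 < M.det ^ 2 := by positivity
    positivity
  · rw [hlog]
    have : ∑ j, Real.log (1 - l j) ≤ 0 :=
      Finset.sum_nonpos fun j _ => (P1_nonneg_log (hl j).1 (hl j).2).1
    linarith
  · rw [hlog]
    have : 0 ≤ ∑ j, (Real.log (1 - l j) + 2 * l j) :=
      Finset.sum_nonneg fun j _ => (P1_nonneg_log (hl j).1 (hl j).2).2
    rw [Finset.sum_add_distrib, ← Finset.mul_sum, htr] at this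
    linarith

end Pool.Agent.V8H82.FK
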