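import Pool.Agent.V8H82.HT.Loc
import Pool.Agent.V8H82.FK.P1

set_option autoImplicit false
set_option linter.unusedSectionVars false

/-!
# The determinants of `A + s` and of `A A^* + s ^ 2` for finite matrices
-/

namespace Pool.Agent.V8H82.FK

open Finset Matrix Filter Topology Pool.Agent.V8H82.DM Pool.Agent.V8H82.HT
open Pool.Agent.Q181.TG (reg tc Cok Far)
open TH6.LF (adj bar)

variable {Y : Type} [Fintype Y] [DecidableEq Y]

theorem diag_diff {A : Matrix Y Y ℤ} (hA : HD A) (y : Y) (s : ℝ) (hs : 0 < s) (hs1 : s ≤ 1 / 2) :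
    s * Gs A s y y - s ^ 2 * ∑ z, Gs A s y z ^ 2 ≤ 12 * Real.sqrt s := by
  have hq : 0 < Real.sqrt s := Real.sqrt_pos.2 hs
  have hsq : s * (12 / Real.sqrt s) = 12 * Real.sqrt s := by
    have h := Real.mul_self_sqrt hs.le
    field_simp
    nlinarith
  have h0 : 0 ≤ ∑ z, Gs A s y z ^ 2 := Finset.sum_nonneg fun z _ => sq_nonneg _
  by_cases hg : good (hp A) y
  · have h1 := (hA.green_good y hg s hs hs1).2
    have h2 : s * Gs A s y y ≤ 12 * Real.sqrt s := by
      rw [← hsq]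
      exact mul_le_mul_of_nonneg_left h1 hs.le
    have h3 : 0 ≤ s ^ 2 * ∑ z, Gs A s y z ^ 2 := mul_nonneg (sq_nonneg _) h0
    linarith
  · have h1 := (hA.green_bad y hg s hs hs1).2
    set n : ℝ := ((cls (hp A) y).card : ℝ) with hn
    have hn0 : 0 < n := by
      have := card_cls_pos (hp A) y
      rw [hn]
      exact_mod_cast this
    set u : Y → ℝ := fun z => (uv (hp A) y z : ℝ) with hu
    have hu1 : Ms A s *ᵥ u = s • u := by
      funext z
      rw [Ms_mulVec]
      have h1 := hA.ker y hg z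
      have h2 : ∑ w, (A z w : ℝ) * u w = 0 := by
        simp only [hu]
        exact_mod_cast h1
      rw [h2, zero_add]
      rfl
    have hu3 : Gs A s *ᵥ u = (1 / s) • u := by
      have h1 : Gs A s *ᵥ (Ms A s *ᵥ u) = u := by
        rw [mulVec_mulVec, hA.Gs_Ms s hs, one_mulVec]
      rw [hu1, mulVec_smul] at h1
      rw [← h1, smul_smul, one_div, inv_mul_cancel₀ hs.ne', one_smul, h1]
    have hus : ∑ z, u z ^ 2 = n := by
      have h1 := uv_sq hg
      simp only [hu, hn]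
      exact_mod_cast h1
    have h4 : ∑ z, Gs A s y z * u z = 1 / s := by
      have h5 := congrFun hu3 y
      simp only [mulVec, dotProduct, Pi.smul_apply, smul_eq_mul] at h5
      rw [h5]
      simp [hu, uv_self]
    have h5 : (∑ z, Gs A s y z * u z) ^ 2 ≤ (∑ z, Gs A s y z ^ 2) * ∑ z, u z ^ 2 :=
      Finset.sum_mul_sq_le_sq_mul_sq univ _ _
    rw [h4, hus] at h5
    have h6 : 1 / n ≤ s ^ 2 * ∑ z, Gs A s y z ^ 2 := by
      rw [div_le_iff₀ hn0]
      have h7 : s ^ 2 * (1 / s) ^ 2 = 1 := by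
        field_simp
      nlinarith [sq_nonneg s]
    have h7 : s * Gs A s y y ≤ 1 / n + 12 * Real.sqrt s := by
      have h8 := mul_le_mul_of_nonneg_left h1 hs.le
      have h9 : s * (1 / n / s + 12 / Real.sqrt s) = 1 / n + s * (12 / Real.sqrt s) := by
        field_simp
      rw [h9, hsq] at h8
      exact h8
    linarith

/-- the matrix `q ^ 2 A A^T + 1` -/
def m2 (A : Matrix Y Y ℤ) (q : ℕ) : Matrix Y Y ℤ := (q ^ 2) • (A * Aᵀ) + 1

theorem m2_map (A : Matrix Y Y ℤ) (q : ℕ) (hq : 1 ≤ q) :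
    (m2 A q).map (fun x : ℤ => (x : ℝ)) = ((q : ℝ) ^ 2) •
      (A.map (fun x : ℤ => (x : ℝ)) * (A.map (fun x : ℤ => (x : ℝ)))ᵀ +
        ((1 / (q : ℝ)) ^ 2) • (1 : Matrix Y Y ℝ)) := by
  have hq' : (q : ℝ) ≠ 0 := by
    have : (1 : ℝ) ≤ q := by exact_mod_cast hq
    linarith
  have h2 : (A * Aᵀ).map (fun x : ℤ => (x : ℝ)) =
      A.map (fun x : ℤ => (x : ℝ)) * (A.map (fun x : ℤ => (x : ℝ)))ᵀ := by
    have h3 := Matrix.map_mul (L := A) (M := Aᵀ) (f := Int.castRingHom ℝ)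
    exact h3
  rw [← h2]
  ext y z
  unfold m2
  simp only [Matrix.map_apply, Matrix.add_apply, Matrix.smul_apply, Matrix.one_apply, smul_eq_mul]
  by_cases h : y = z
  · simp only [h, if_true, nsmul_eq_mul, mul_one]
    push_cast
    field_simp
  · simp only [h, if_false, nsmul_eq_mul, mul_zero, add_zero]
    push_cast
    ring

/-- the two regularised determinants -/
theorem two_sided {A : Matrix Y Y ℤ} (hA : HD A) (q : ℕ) (hq : 2 ≤ q) :
    |1 / 2 * Real.log ((m2 A q).map (fun x : ℤ => (x : ℝ))).det - Fintype.card Y * Real.log q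
      - Real.log (Ms A (1 / q)).det| ≤ 24 * Fintype.card Y * Real.sqrt (1 / q) := by
  have hq' : (2 : ℝ) ≤ q := by exact_mod_cast hq
  have hs : (0 : ℝ) < 1 / q := by positivity
  have hs1 : (1 : ℝ) / q ≤ 1 / 2 := by
    rw [div_le_div_iff₀ (by linarith) (by norm_num)]
    linarith
  obtain ⟨h1, h2, h3⟩ := P1 (A.map (fun x : ℤ => (x : ℝ))) (Gs A (1 / q)) (1 / q) hs
    (fun v => by rw [dot_map]; exact hA.qf_nonneg v) (hA.Ms_Gs (1 / q) hs)
  rw [Real.log_abs] at h2 h3
  have h4 : A.map (fun x : ℤ => (x : ℝ)) + (1 / (q : ℝ)) • (1 : Matrix Y Y ℝ) = Ms A (1 / q) := rfl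
  rw [h4] at h2 h3
  have h5 : ∑ y, (1 / (q : ℝ) * Gs A (1 / q) y y - (1 / (q : ℝ)) ^ 2 * ∑ z, Gs A (1 / q) y z ^ 2)
      ≤ Fintype.card Y * (12 * Real.sqrt (1 / q)) := by
    have h6 := Finset.sum_le_sum fun y (_ : y ∈ univ) => diag_diff hA y (1 / q) hs hs1
    rw [Finset.sum_const, nsmul_eq_mul, Finset.card_univ] at h6
    exact h6
  rw [m2_map A q (by omega), Matrix.det_smul, Real.log_mul (by positivity) h1.ne', Real.log_pow,
    Real.log_pow]
  push_cast
  rw [abs_le]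
  constructor <;> nlinarith

end Pool.Agent.V8H82.FK
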