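import Pool.Agent.V8H82.HT.Far
import Pool.Agent.V8H82.FK.Fin

set_option autoImplicit false
set_option linter.unusedSectionVars false

/-!
# The limit, with the determinants of `A A^* + 1 / q ^ 2`
-/

namespace Pool.Agent.V8H82.FK

open Finset Matrix Filter Topology Pool.Agent.V8H82.DM Pool.Agent.V8H82.HT
open Pool.Agent.Q181.TG (reg tc Cok Far)
open TH6.LF (adj bar)

variable {G : Type} [Group G] {ι : Type} [Fintype ι] [DecidableEq ι]
  (A : Matrix ι ι (MonoidAlgebra ℤ G))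

/-- `q ^ 2 A A^* + 1` -/
noncomputable def t2 (q : ℕ) : Matrix ι ι (MonoidAlgebra ℤ G) := (q ^ 2) • (A * adj A) + 1

/-- `C - (q ^ 2 A A^* + 1)` -/
noncomputable def d2 (q C : ℕ) : Matrix ι ι (MonoidAlgebra ℤ G) :=
  C • (1 : Matrix ι ι (MonoidAlgebra ℤ G)) - t2 A q

theorem reg_t2 (X : Type) [Fintype X] [DecidableEq X] [MulAction G X] (q : ℕ) :
    reg X (t2 A q) = m2 (reg X A) q := by
  unfold t2 m2
  rw [reg_add, reg_nsmul, reg_mul, reg_adj, reg_one]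

theorem reg_d2 (X : Type) [Fintype X] [DecidableEq X] [MulAction G X] (q C : ℕ) :
    reg X (d2 A q C) = cB (m2 (reg X A) q) C := by
  unfold d2
  rw [reg_cB, reg_t2]

/-- the density of the logarithm of the determinant -/
noncomputable def g2 (q C K : ℕ) (i : ι) : PF G := fun X _ _ x =>
  (1 / 2 * Real.log C - Real.log q) + (- (1 / 2)) * ∑ k ∈ range K,
    (((k : ℝ) + 1) * (C : ℝ) ^ (k + 1))⁻¹ * bk (d2 A q C) (k + 1) i X x

/-- truncated sums -/
noncomputable def g2f (q C K : ℕ) (i : ι) : ℝ :=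
  (1 / 2 * Real.log C - Real.log q) + (- (1 / 2)) * ∑ k ∈ range K,
    (((k : ℝ) + 1) * (C : ℝ) ^ (k + 1))⁻¹ * bf (d2 A q C) (k + 1) i

open Classical in
theorem sum_g2 (q C K : ℕ) (X : Type) [Fintype X] [MulAction G X] :
    ∑ x : X, ∑ i, g2 A q C K i X x = 1 / 2 * (((Fintype.card (X × ι) : ℕ) : ℝ) * Real.log C -
      ∑ k ∈ range K, ((((reg X (d2 A q C)) ^ (k + 1)).trace : ℤ) : ℝ) /
        (((k : ℝ) + 1) * (C : ℝ) ^ (k + 1)))
      - ((Fintype.card (X × ι) : ℕ) : ℝ) * Real.log q := by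
  unfold g2
  rw [← Fintype.sum_prod_type' (f := fun (x : X) (i : ι) =>
    (1 / 2 * Real.log C - Real.log q) + (- (1 / 2)) * ∑ k ∈ range K,
      (((k : ℝ) + 1) * (C : ℝ) ^ (k + 1))⁻¹ * bk (d2 A q C) (k + 1) i X x),
    Finset.sum_add_distrib, Finset.sum_const, nsmul_eq_mul, Finset.card_univ, ← Finset.mul_sum,
    Finset.sum_comm]
  have h1 : ∑ k ∈ range K, ∑ x : X × ι, (((k : ℝ) + 1) * (C : ℝ) ^ (k + 1))⁻¹ *
      bk (d2 A q C) (k + 1) x.2 X x.1 = ∑ k ∈ range K, ((((reg X (d2 A q C)) ^ (k + 1)).trace : ℤ) : ℝ) /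
        (((k : ℝ) + 1) * (C : ℝ) ^ (k + 1)) := by
    refine Finset.sum_congr rfl fun k _ => ?_
    rw [← Finset.mul_sum, div_eq_inv_mul]
    congr 1
    simp only [Matrix.trace, Matrix.diag_apply, bk]
    push_cast
    rfl
  rw [h1]
  ring

/-- the error term -/
noncomputable def Er3 (C K : ℕ) : ℝ := (C : ℝ) * (1 - 1 / (C : ℝ)) ^ (K + 1) / 2

theorem Er3_tendsto (C : ℕ) (hC1 : 1 ≤ C) : Tendsto (fun K => Er3 C K) atTop (𝓝 0) := by
  have hC : (1 : ℝ) ≤ (C : ℝ) := by exact_mod_cast hC1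
  have h1 : Tendsto (fun K : ℕ => (1 - 1 / (C : ℝ)) ^ K) atTop (𝓝 0) := by
    refine tendsto_pow_atTop_nhds_zero_of_lt_one ?_ ?_
    · have : 1 / (C : ℝ) ≤ 1 := by
        rw [div_le_one (by linarith)]
        exact hC
      linarith
    · have : 0 < 1 / (C : ℝ) := by positivity
      linarith
  have h2 := ((tendsto_add_atTop_iff_nat 1).2 h1).const_mul ((C : ℝ))
  have h3 := h2.div_const 2
  simpa [Er3] using h3

section fin

variable {Y : Type} [Fintype Y] [DecidableEq Y] (M : Matrix Y Y ℤ) (q C : ℕ)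
  (h1 : ∀ y, ∑ z, |m2 M q y z| ≤ C) (h2 : ∀ y, ∑ z, |m2 M q z y| ≤ C)

theorem c2_symm : (cB (m2 M q) C)ᵀ = cB (m2 M q) C := by
  unfold cB m2
  rw [Matrix.transpose_sub, Matrix.transpose_smul, Matrix.transpose_one, Matrix.transpose_add,
    Matrix.transpose_smul, Matrix.transpose_mul, Matrix.transpose_transpose, Matrix.transpose_one]

theorem qf_m2 (v : Y → ℝ) : ∑ z, v z ^ 2 ≤ qf (m2 M q) v := by
  have h3 : qf (m2 M q) v = (q : ℝ) ^ 2 * qf (M * Mᵀ) v + ∑ z, v z ^ 2 := by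
    unfold qf m2
    have h4 : ∀ y z, ((((q ^ 2) • (M * Mᵀ) + 1 : Matrix Y Y ℤ) y z : ℤ) : ℝ) * v y * v z =
        (q : ℝ) ^ 2 * ((((M * Mᵀ) y z : ℤ) : ℝ) * v y * v z) + if y = z then v y ^ 2 else 0 := by
      intro y z
      rw [Matrix.add_apply, Matrix.smul_apply, Matrix.one_apply]
      by_cases h : y = z
      · subst h
        simp
        ring
      · simp [h]
        ring
    simp only [h4, Finset.sum_add_distrib, Finset.sum_ite_eq, mem_univ, if_true, Finset.mul_sum]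
  rw [h3, qf_gram]
  have h4 : 0 ≤ (q : ℝ) ^ 2 * ∑ x, (∑ y, (M y x : ℝ) * v y) ^ 2 := by positivity
  linarith

include h1 h2

theorem c2_low (v : Y → ℝ) :
    0 ≤ v ⬝ᵥ (((cB (m2 M q) C).map (fun x : ℤ => (x : ℝ))) *ᵥ v) := by
  rw [dot_map]
  exact Pool.Agent.V8H82.DM.qf_nonneg _ (cB_DD _ C h1 h2) v

omit h1 h2 in
theorem c2_up (v : Y → ℝ) :
    v ⬝ᵥ (((cB (m2 M q) C).map (fun x : ℤ => (x : ℝ))) *ᵥ v)
      ≤ ((C : ℝ) - 1) * ∑ z, v z ^ 2 := by
  rw [dot_map, qf_cB]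
  have := qf_m2 M q v
  linarith

theorem log_m2 (hC : 1 ≤ C) (K : ℕ) :
    |Real.log ((m2 M q).map (fun x : ℤ => (x : ℝ))).det - ((Fintype.card Y : ℝ) * Real.log C -
      ∑ k ∈ range K, ((((cB (m2 M q) C) ^ (k + 1)).trace : ℤ) : ℝ) /
        (((k : ℝ) + 1) * (C : ℝ) ^ (k + 1)))|
      ≤ (Fintype.card Y : ℝ) * ((C : ℝ) * (1 - 1 / (C : ℝ)) ^ (K + 1)) := by
  have h3 := Pool.Agent.V8H36.LS.log_series (cB (m2 M q) C)
    (c2_symm M q C) C hC (c2_low M q C h1 h2) (c2_up M q C) K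
  have h4 : (C : ℝ) • (1 : Matrix Y Y ℝ) - (cB (m2 M q) C).map (fun x : ℤ => (x : ℝ))
      = (m2 M q).map (fun x : ℤ => (x : ℝ)) := by
    ext y z
    unfold cB
    simp only [Matrix.sub_apply, Matrix.map_apply, Matrix.smul_apply, Matrix.one_apply, smul_eq_mul]
    push_cast
    split_ifs <;> ring
  rw [h4] at h3
  exact h3

end fin

variable {A}

/-- row and column sums of `t2` -/
def Bd (A : Matrix ι ι (MonoidAlgebra ℤ G)) (q C : ℕ) : Prop :=
  (∀ i, ∑ j, nm (t2 A q i j) ≤ C) ∧ ∀ j, ∑ i, nm (t2 A q i j) ≤ C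

theorem main2 (h : Dom2 A) (hk : KerCond A) (q : ℕ) (hq : 2 ≤ q) (C : ℕ) (hC : 1 ≤ C)
    (hb : Bd A q C) (K : ℕ) (X : Type) [Fintype X] [MulAction G X] :
    |Real.log (tc (Cok (reg X A))) - ∑ x : X, ∑ i, (g2 A q C K i X x +
      (Real.log q * pp (bb A) (cc A) i X x + (-1) * eta (pp (bb A) (cc A) i X x)))| ≤
      Fintype.card X * (Fintype.card ι * (48 * Real.sqrt (1 / q) + Er3 C K)) := by
  classical
  have hHD := HD_reg h hk X
  have hq1 : 1 ≤ q := by omega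
  have hq' : (2 : ℝ) ≤ q := by exact_mod_cast hq
  have hs : (0 : ℝ) < 1 / q := by positivity
  have hs1 : (1 : ℝ) / q ≤ 1 / 2 := by
    rw [div_le_div_iff₀ (by linarith) (by norm_num)]
    linarith
  have h5 := er_le (reg X A) hHD (1 / q) hs hs1
  have hts := two_sided hHD q hq
  have hrow : ∀ y, ∑ z, |m2 (reg X A) q y z| ≤ C := by
    rw [← reg_t2]
    exact reg_row X _ _ hb.1
  have hcol : ∀ y, ∑ z, |m2 (reg X A) q z y| ≤ C := by
    rw [← reg_t2]
    exact reg_col X _ _ hb.2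
  have h6 := log_m2 (reg X A) q C hrow hcol hC K
  rw [← reg_d2] at h6
  have h7 : ∑ x : X, ∑ i, (g2 A q C K i X x +
      (Real.log q * pp (bb A) (cc A) i X x + (-1) * eta (pp (bb A) (cc A) i X x))) =
      (∑ x : X, ∑ i, g2 A q C K i X x) + Real.log q *
      ∑ y, Pf (hp (reg X A)) y - ∑ y, Real.negMulLog (Pf (hp (reg X A)) y) := by
    simp only [Finset.sum_add_distrib]
    rw [← Fintype.sum_prod_type' (f := fun (x : X) (i : ι) =>
        Real.log q * pp (bb A) (cc A) i X x),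
      ← Fintype.sum_prod_type' (f := fun (x : X) (i : ι) => -1 * eta (pp (bb A) (cc A) i X x)),
      ← Finset.mul_sum, ← Finset.mul_sum]
    have h8 : ∀ y : X × ι, pp (bb A) (cc A) y.2 X y.1 = Pf (hp (reg X A)) y := fun y => by
      rw [hp_cB]
      unfold pp
      congr
    have h9 : ∀ y : X × ι, eta (Pf (hp (reg X A)) y) = Real.negMulLog (Pf (hp (reg X A)) y) :=
      fun y => eta_eq _ (Pf_nonneg _ _) (Pf_le_one _ _)
    simp only [h8, h9]
    ring
  rw [h7, sum_g2]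
  have h10 : Real.log (1 / (q : ℝ)) = - Real.log q := by rw [one_div, Real.log_inv]
  unfold Pool.Agent.V8H82.HT.er at h5
  rw [h10] at h5
  have h11 : ((Fintype.card (X × ι) : ℕ) : ℝ) = Fintype.card X * Fintype.card ι := by
    rw [Fintype.card_prod]
    push_cast
    ring
  have h12 : (Fintype.card X : ℝ) * (Fintype.card ι * (48 * Real.sqrt (1 / q) + Er3 C K))
      = 48 * ((Fintype.card (X × ι) : ℕ) : ℝ) * Real.sqrt (1 / q)
        + ((Fintype.card (X × ι) : ℕ) : ℝ) * ((C : ℝ) *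
          (1 - 1 / (C : ℝ)) ^ (K + 1)) / 2 := by
    rw [h11]
    unfold Er3
    ring
  rw [h12]
  rw [abs_le] at h5 h6 hts ⊢
  constructor <;> linarith [h5.1, h5.2, h6.1, h6.2, hts.1, hts.2]

end Pool.Agent.V8H82.FK
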