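import Mathlib

set_option autoImplicit false

namespace Pool.Agent.V8H82.FK

open Finset Matrix MeasureTheory Filter Topology

/-- P2 -/
theorem P2 (ν : Measure ℝ) [IsFiniteMeasure ν] (Λ : ℝ) (hΛ : ∀ᵐ x ∂ν, 0 ≤ x ∧ x ≤ Λ) (p L : ℝ)
    (h : Tendsto (fun q : ℕ => (1 / 2) * ∫ x, Real.log (x + 1 / (q : ℝ) ^ 2) ∂ν + Real.log q * p)
      atTop (𝓝 L)) :
    (ν {0}).toReal = p ∧ IntegrableOn Real.log (Set.Ioi 0) ν ∧
      (1 / 2) * ∫ x in Set.Ioi 0, Real.log x ∂ν = L := by
  set μ := ν.restrict (Set.Ioi 0) with hμ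
  obtain ⟨M, hM0, hM⟩ : ∃ M : ℝ, 0 ≤ M ∧ ∀ᵐ x ∂ν, 0 ≤ x ∧ x ≤ M :=
    ⟨|Λ|, abs_nonneg _, hΛ.mono fun x hx => ⟨hx.1, hx.2.trans (le_abs_self _)⟩⟩
  set f : ℕ → ℝ → ℝ := fun n x => Real.log (x + 1 / ((n : ℝ) + 1) ^ 2) with hf
  have hμM : ∀ᵐ x ∂μ, 0 < x ∧ x ≤ M := by
    have h1 : ∀ᵐ x ∂μ, 0 ≤ x ∧ x ≤ M := ae_restrict_of_ae hM
    have h2 : ∀ᵐ x ∂μ, x ∈ Set.Ioi (0 : ℝ) := ae_restrict_mem measurableSet_Ioi
    filter_upwards [h1, h2] with x hx1 hx2 using ⟨hx2, hx1.2⟩
  have hfm : ∀ n, Measurable (f n) := fun n =>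
    Real.measurable_log.comp (measurable_id.add_const _)
  have hn1 : ∀ n : ℕ, (0 : ℝ) < (n : ℝ) + 1 := fun n => by positivity
  have hlogn : ∀ n : ℕ, 0 ≤ Real.log ((n : ℝ) + 1) := fun n =>
    Real.log_nonneg (by have : (0 : ℝ) ≤ n := Nat.cast_nonneg n; linarith)
  have hlogM : 0 ≤ Real.log (M + 1) := Real.log_nonneg (by linarith)
  have hup : ∀ (n : ℕ) (x : ℝ), 0 ≤ x → x ≤ M → f n x ≤ Real.log (M + 1) := by
    intro n x h0 h1
    have h2 : 1 / ((n : ℝ) + 1) ^ 2 ≤ 1 := by
      rw [div_le_one (by positivity)]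
      have : (0 : ℝ) ≤ n := Nat.cast_nonneg n
      nlinarith
    have h3 : 0 < 1 / ((n : ℝ) + 1) ^ 2 := by positivity
    exact Real.log_le_log (by linarith) (by linarith)
  have hlo : ∀ (n : ℕ) (x : ℝ), 0 ≤ x → -(2 * Real.log ((n : ℝ) + 1)) ≤ f n x := by
    intro n x h0
    have h3 : 0 < 1 / ((n : ℝ) + 1) ^ 2 := by positivity
    have h4 : Real.log (1 / ((n : ℝ) + 1) ^ 2) ≤ f n x := Real.log_le_log h3 (by linarith)
    rw [one_div, Real.log_inv, Real.log_pow] at h4
    exact_mod_cast h4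
  have hb : ∀ (n : ℕ) (x : ℝ), 0 ≤ x → x ≤ M →
      |f n x| ≤ 2 * Real.log ((n : ℝ) + 1) + Real.log (M + 1) := by
    intro n x h0 h1
    have h2 := hup n x h0 h1
    have h3 := hlo n x h0
    have h4 := hlogn n
    rw [abs_le]
    constructor <;> linarith
  have hint : ∀ n, Integrable (f n) ν := by
    intro n
    refine Integrable.of_bound (hfm n).aestronglyMeasurable
      (2 * Real.log ((n : ℝ) + 1) + Real.log (M + 1)) ?_
    filter_upwards [hM] with x hx
    rw [Real.norm_eq_abs]
    exact hb n x hx.1 hx.2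
  have hintμ : ∀ n, Integrable (f n) μ := fun n => (hint n).restrict
  have split : ∀ n, ∫ x, f n x ∂ν =
      -(2 * Real.log ((n : ℝ) + 1)) * (ν {0}).toReal + ∫ x, f n x ∂μ := by
    intro n
    have h1 : ν.restrict (Set.Ici 0) = ν := Measure.restrict_eq_self_of_ae_mem
      (hM.mono fun x hx => hx.1)
    have h2 : Set.Ici (0 : ℝ) = {0} ∪ Set.Ioi 0 := by
      ext x
      simp only [Set.mem_Ici, Set.mem_union, Set.mem_singleton_iff, Set.mem_Ioi]
      constructor
      · intro hx
        rcases hx.eq_or_lt with h | h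
        · exact Or.inl h.symm
        · exact Or.inr h
      · rintro (h | h)
        · exact h.ge
        · exact h.le
    have h3 : ∫ x, f n x ∂ν = ∫ x in {0} ∪ Set.Ioi (0 : ℝ), f n x ∂ν := by
      rw [← h2, h1]
    rw [h3, setIntegral_union (by simp) measurableSet_Ioi (hint n).integrableOn
      (hint n).integrableOn, integral_singleton]
    have h4 : f n 0 = -(2 * Real.log ((n : ℝ) + 1)) := by
      simp only [hf, zero_add]
      rw [one_div, Real.log_inv, Real.log_pow]
      push_cast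
      ring
    rw [h4, smul_eq_mul, mul_comm]
    rfl
  set ν0 := (ν {0}).toReal with hν0
  have hlim : Tendsto (fun n : ℕ => Real.log ((n : ℝ) + 1)) atTop atTop :=
    Real.tendsto_log_atTop.comp (tendsto_atTop_add_const_right _ _ tendsto_natCast_atTop_atTop)
  have h' : Tendsto (fun n : ℕ => (1 / 2) * ∫ x, f n x ∂μ + Real.log ((n : ℝ) + 1) * (p - ν0))
      atTop (𝓝 L) := by
    have h1 := h.comp (tendsto_add_atTop_nat 1)
    refine h1.congr fun n => ?_
    simp only [Function.comp]
    push_cast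
    have h2 := split n
    simp only [hf] at h2 ⊢
    rw [h2]
    ring
  have hpt : ∀ x : ℝ, 0 < x → Tendsto (fun n => f n x) atTop (𝓝 (Real.log x)) := by
    intro x hx
    have h1 : Tendsto (fun n : ℕ => x + 1 / ((n : ℝ) + 1) ^ 2) atTop (𝓝 (x + 0)) := by
      apply Tendsto.add tendsto_const_nhds
      have h2 : Tendsto (fun n : ℕ => (1 / ((n : ℝ) + 1)) ^ 2) atTop (𝓝 (0 ^ 2)) :=
        (tendsto_one_div_add_atTop_nhds_zero_nat (𝕜 := ℝ)).pow 2
      rw [zero_pow two_ne_zero] at h2
      refine h2.congr fun n => ?_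
      rw [div_pow, one_pow]
    rw [add_zero] at h1
    exact (Real.continuousAt_log hx.ne').tendsto.comp h1
  -- the mass at 0
  have hdct : Tendsto (fun n : ℕ => ∫ x, f n x / Real.log ((n : ℝ) + 1) ∂μ) atTop
      (𝓝 (∫ _ : ℝ, (0 : ℝ) ∂μ)) := by
    refine tendsto_integral_of_dominated_convergence
      (fun _ => 2 + Real.log (M + 1) / Real.log 2) (fun n => ?_) (integrable_const _)
      (fun n => ?_) ?_
    · exact ((hfm n).div_const _).aestronglyMeasurable
    · filter_upwards [hμM] with x hx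
      rw [Real.norm_eq_abs, abs_div, abs_of_nonneg (hlogn n)]
      have hl2 : 0 < Real.log 2 := Real.log_pos (by norm_num)
      rcases Nat.eq_zero_or_pos n with rfl | hn
      · simp only [Nat.cast_zero, zero_add, Real.log_one, div_zero]
        positivity
      · have h1 : Real.log 2 ≤ Real.log ((n : ℝ) + 1) := by
          apply Real.log_le_log (by norm_num)
          have : (1 : ℝ) ≤ n := by exact_mod_cast hn
          linarith
        have h2 : 0 < Real.log ((n : ℝ) + 1) := hl2.trans_le h1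
        calc |f n x| / Real.log ((n : ℝ) + 1)
            ≤ (2 * Real.log ((n : ℝ) + 1) + Real.log (M + 1)) / Real.log ((n : ℝ) + 1) := by
              apply div_le_div_of_nonneg_right (hb n x hx.1.le hx.2) h2.le
          _ = 2 + Real.log (M + 1) / Real.log ((n : ℝ) + 1) := by field_simp
          _ ≤ 2 + Real.log (M + 1) / Real.log 2 := by
              gcongr
    · filter_upwards [hμM] with x hx
      exact (hpt x hx.1).div_atTop hlim
  rw [integral_zero] at hdct
  have hp : ν0 = p := by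
    have h1 := h'.div_atTop hlim
    have h2 : Tendsto (fun n : ℕ => p - ν0) atTop (𝓝 (0 - (1 / 2) * 0)) := by
      refine (h1.sub (hdct.const_mul (1 / 2))).congr' ?_
      filter_upwards [eventually_gt_atTop 0] with n hn
      have h3 : 0 < Real.log ((n : ℝ) + 1) := by
        apply Real.log_pos
        have : (1 : ℝ) ≤ n := by exact_mod_cast hn
        linarith
      rw [integral_div]
      field_simp
      ring
    have h3 := tendsto_nhds_unique h2 tendsto_const_nhds
    linarith
  refine ⟨hp, ?_⟩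
  have h2 : Tendsto (fun n : ℕ => (1 / 2) * ∫ x, f n x ∂μ) atTop (𝓝 L) := by
    refine h'.congr fun n => ?_
    rw [hp]
    ring
  have h3 : Tendsto (fun n : ℕ => ∫ x, f n x ∂μ) atTop (𝓝 (2 * L)) := by
    refine (h2.const_mul 2).congr fun n => ?_
    ring
  have hanti : ∀ x : ℝ, 0 < x → Antitone fun n => f n x := by
    intro x hx
    refine antitone_nat_of_succ_le fun n => ?_
    apply Real.log_le_log (by positivity)
    have h4 : 1 / (((n + 1 : ℕ) : ℝ) + 1) ^ 2 ≤ 1 / ((n : ℝ) + 1) ^ 2 := by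
      apply one_div_le_one_div_of_le (by positivity)
      push_cast
      have : (0 : ℝ) ≤ n := Nat.cast_nonneg n
      nlinarith
    linarith
  have hg0 : 0 ≤ᵐ[μ] fun x => Real.log (M + 1) - Real.log x := by
    filter_upwards [hμM] with x hx
    simp only [Pi.zero_apply]
    have := Real.log_le_log hx.1 (show x ≤ M + 1 by linarith [hx.2])
    linarith
  have hI : Integrable (fun x => Real.log (M + 1) - Real.log x) μ := by
    refine ⟨(measurable_const.sub Real.measurable_log).aestronglyMeasurable, ?_⟩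
    rw [hasFiniteIntegral_iff_ofReal hg0]
    have h4 : Tendsto (fun n => ∫⁻ x, ENNReal.ofReal (Real.log (M + 1) - f n x) ∂μ) atTop
        (𝓝 (∫⁻ x, ENNReal.ofReal (Real.log (M + 1) - Real.log x) ∂μ)) := by
      refine lintegral_tendsto_of_tendsto_of_monotone
        (fun n => (measurable_const.sub (hfm n)).ennreal_ofReal.aemeasurable) ?_ ?_
      · filter_upwards [hμM] with x hx
        intro a b hab
        exact ENNReal.ofReal_le_ofReal (by linarith [hanti x hx.1 hab])
      · filter_upwards [hμM] with x hx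
        exact (ENNReal.continuous_ofReal.tendsto _).comp (tendsto_const_nhds.sub (hpt x hx.1))
    have h5 : Tendsto (fun n => ∫⁻ x, ENNReal.ofReal (Real.log (M + 1) - f n x) ∂μ) atTop
        (𝓝 (ENNReal.ofReal ((∫ _ : ℝ, Real.log (M + 1) ∂μ) - 2 * L))) := by
      have h6 : Tendsto (fun n => ENNReal.ofReal ((∫ _ : ℝ, Real.log (M + 1) ∂μ) -
          ∫ x, f n x ∂μ)) atTop (𝓝 (ENNReal.ofReal ((∫ _ : ℝ, Real.log (M + 1) ∂μ) - 2 * L))) :=
        (ENNReal.continuous_ofReal.tendsto _).comp (tendsto_const_nhds.sub h3)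
      refine h6.congr fun n => ?_
      rw [← integral_sub (integrable_const _) (hintμ n)]
      refine ofReal_integral_eq_lintegral_ofReal ((integrable_const _).sub (hintμ n)) ?_
      filter_upwards [hμM] with x hx
      simp only [Pi.zero_apply]
      linarith [hup n x hx.1.le hx.2]
    rw [tendsto_nhds_unique h4 h5]
    exact ENNReal.ofReal_lt_top
  have hlogI : Integrable Real.log μ := by
    have h4 := (integrable_const (μ := μ) (Real.log (M + 1))).sub hI
    refine h4.congr (ae_of_all _ fun x => ?_)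
    simp
  refine ⟨hlogI, ?_⟩
  have h7 : Tendsto (fun n : ℕ => ∫ x, f n x ∂μ) atTop (𝓝 (∫ x, Real.log x ∂μ)) := by
    refine integral_tendsto_of_tendsto_of_antitone hintμ hlogI ?_ ?_
    · filter_upwards [hμM] with x hx using hanti x hx.1
    · filter_upwards [hμM] with x hx using hpt x hx.1
  rw [tendsto_nhds_unique h7 h3]
  ring

end Pool.Agent.V8H82.FK
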