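import Mathlib

set_option autoImplicit false

namespace Pool.Agent.V8H82.FK

open Finset Matrix MeasureTheory Filter Topology

/-- P3 -/
theorem P3 (ν : Measure ℝ) [IsFiniteMeasure ν] (Λ : ℝ) (hΛ : ∀ᵐ x ∂ν, 0 ≤ x ∧ x ≤ Λ) (q C : ℕ)
    (hq : 1 ≤ q) (hC1 : 1 ≤ C) (hC : (q : ℝ) ^ 2 * Λ + 1 ≤ C) :
    ∫ x, Real.log (x + 1 / (q : ℝ) ^ 2) ∂ν =
      (ν Set.univ).toReal * (Real.log C - 2 * Real.log q) -
      ∑' k : ℕ, (∫ x, ((C : ℝ) - 1 - (q : ℝ) ^ 2 * x) ^ (k + 1) ∂ν) /
        (((k : ℝ) + 1) * (C : ℝ) ^ (k + 1)) := by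
  have hq0 : (0 : ℝ) < q := by exact_mod_cast hq
  have hC0 : (0 : ℝ) < C := by exact_mod_cast hC1
  set r : ℝ := 1 - 1 / C with hr
  have hr0 : 0 ≤ r := by
    rw [hr, sub_nonneg, div_le_one hC0]
    exact_mod_cast hC1
  have hr1 : r < 1 := by
    rw [hr]
    have : (0 : ℝ) < 1 / C := by positivity
    linarith
  set u : ℝ → ℝ := fun x => ((C : ℝ) - 1 - (q : ℝ) ^ 2 * x) / C with hu
  have hu_bd : ∀ᵐ x ∂ν, 0 ≤ u x ∧ u x ≤ r := by
    filter_upwards [hΛ] with x hx
    constructor
    · apply div_nonneg _ hC0.le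
      have : (q : ℝ) ^ 2 * x ≤ (q : ℝ) ^ 2 * Λ := mul_le_mul_of_nonneg_left hx.2 (by positivity)
      linarith
    · rw [hr, hu]
      show ((C : ℝ) - 1 - (q : ℝ) ^ 2 * x) / C ≤ 1 - 1 / C
      rw [div_le_iff₀ hC0]
      have h1 : (1 - 1 / (C : ℝ)) * C = C - 1 := by field_simp
      rw [h1]
      have : 0 ≤ (q : ℝ) ^ 2 * x := mul_nonneg (by positivity) hx.1
      linarith
  have hmeas : ∀ k : ℕ, Measurable (fun x => u x ^ (k + 1) / ((k : ℝ) + 1)) := by
    intro k
    simp only [hu]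
    fun_prop
  have hF : ∀ k : ℕ, Integrable (fun x => u x ^ (k + 1) / ((k : ℝ) + 1)) ν := by
    intro k
    apply Integrable.of_bound (hmeas k).aestronglyMeasurable (r ^ (k + 1) / ((k : ℝ) + 1))
    filter_upwards [hu_bd] with x hx
    rw [Real.norm_eq_abs, abs_of_nonneg (by have := hx.1; positivity)]
    gcongr
    exact hx.1
    exact hx.2
  have hFn : ∀ k : ℕ, ∫ x, ‖u x ^ (k + 1) / ((k : ℝ) + 1)‖ ∂ν ≤
      (ν Set.univ).toReal * r ^ (k + 1) := by
    intro k
    have h1 : ∫ x, ‖u x ^ (k + 1) / ((k : ℝ) + 1)‖ ∂ν ≤ ∫ _x, r ^ (k + 1) ∂ν := by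
      apply integral_mono_ae (hF k).norm (integrable_const _)
      filter_upwards [hu_bd] with x hx
      rw [Real.norm_eq_abs, abs_of_nonneg (by have := hx.1; positivity)]
      calc u x ^ (k + 1) / ((k : ℝ) + 1) ≤ u x ^ (k + 1) :=
            div_le_self (by have := hx.1; positivity) (by
              have : (0 : ℝ) ≤ k := Nat.cast_nonneg k
              linarith)
        _ ≤ r ^ (k + 1) := by
            gcongr
            exact hx.1
            exact hx.2
    rw [integral_const, smul_eq_mul] at h1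
    exact h1
  have hS : Summable (fun k : ℕ => ∫ x, ‖u x ^ (k + 1) / ((k : ℝ) + 1)‖ ∂ν) := by
    apply Summable.of_nonneg_of_le (fun k => integral_nonneg fun x => norm_nonneg _) hFn
    apply Summable.mul_left
    have h2 := (summable_geometric_of_lt_one hr0 hr1).mul_right r
    exact h2.congr fun k => (pow_succ r k).symm
  have hsum := hasSum_integral_of_summable_integral_norm hF hS
  have hpt : ∀ᵐ x ∂ν, Real.log (x + 1 / (q : ℝ) ^ 2) =
      (Real.log C - 2 * Real.log q) - ∑' k : ℕ, u x ^ (k + 1) / ((k : ℝ) + 1) := by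
    filter_upwards [hΛ, hu_bd] with x hx hux
    have h1 : |u x| < 1 := by
      rw [abs_of_nonneg hux.1]
      exact lt_of_le_of_lt hux.2 hr1
    have h2 := (Real.hasSum_pow_div_log_of_abs_lt_one h1).tsum_eq
    rw [h2]
    have h3 : 1 - u x = ((q : ℝ) ^ 2 * x + 1) / C := by
      simp only [hu]
      field_simp
      ring
    have h4 : (0 : ℝ) < (q : ℝ) ^ 2 * x + 1 := by
      have : 0 ≤ (q : ℝ) ^ 2 * x := mul_nonneg (by positivity) hx.1
      linarith
    have h5 : x + 1 / (q : ℝ) ^ 2 = ((q : ℝ) ^ 2 * x + 1) / (q : ℝ) ^ 2 := by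
      field_simp
    rw [h3, h5, Real.log_div h4.ne' (by positivity), Real.log_div h4.ne' hC0.ne', Real.log_pow]
    push_cast
    ring
  have hint : Integrable (fun x => ∑' k : ℕ, u x ^ (k + 1) / ((k : ℝ) + 1)) ν := by
    by_contra hni
    -- the pointwise sum is a bounded measurable function
    apply hni
    have hm : AEStronglyMeasurable (fun x => Real.log C - 2 * Real.log q -
        Real.log (x + 1 / (q : ℝ) ^ 2)) ν := by
      apply Measurable.aestronglyMeasurable
      fun_prop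
    have hb : Integrable (fun x => Real.log C - 2 * Real.log q -
        Real.log (x + 1 / (q : ℝ) ^ 2)) ν := by
      apply Integrable.of_bound hm (-Real.log (1 - r))
      filter_upwards [hΛ, hu_bd, hpt] with x hx hux hp
      have h1 : |u x| < 1 := by
        rw [abs_of_nonneg hux.1]
        exact lt_of_le_of_lt hux.2 hr1
      have h2 := (Real.hasSum_pow_div_log_of_abs_lt_one h1).tsum_eq
      have h6 : Real.log C - 2 * Real.log q - Real.log (x + 1 / (q : ℝ) ^ 2) =
          -Real.log (1 - u x) := by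
        rw [hp, ← h2]
        ring
      rw [h6, Real.norm_eq_abs]
      have h7 : Real.log (1 - u x) ≤ 0 := Real.log_nonpos (by linarith [hux.2]) (by linarith [hux.1])
      have h8 : Real.log (1 - r) ≤ Real.log (1 - u x) :=
        Real.log_le_log (by linarith) (by linarith [hux.2])
      rw [abs_of_nonneg (by linarith)]
      linarith
    apply hb.congr
    filter_upwards [hpt] with x hp
    rw [hp]
    ring
  rw [integral_congr_ae hpt, integral_sub (integrable_const _) hint, integral_const, smul_eq_mul,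
    ← hsum.tsum_eq]
  congr 1
  apply tsum_congr
  intro k
  have h9 : ∀ x, u x ^ (k + 1) / ((k : ℝ) + 1) =
      ((C : ℝ) - 1 - (q : ℝ) ^ 2 * x) ^ (k + 1) / (((k : ℝ) + 1) * (C : ℝ) ^ (k + 1)) := by
    intro x
    simp only [hu]
    rw [div_pow, div_div, mul_comm ((C : ℝ) ^ (k + 1)) ((k : ℝ) + 1)]
  rw [integral_congr_ae (Filter.Eventually.of_forall h9), integral_div]

end Pool.Agent.V8H82.FK
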