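import Mathlib

set_option autoImplicit false

namespace Pool.Agent.V8H82.FK

open Finset Matrix MeasureTheory Filter Topology

/-- The sum of the coefficients of 1 on the diagonal, as an additive map. -/
noncomputable def trOne (G ι : Type) [Group G] [Fintype ι] [DecidableEq ι] :
    Matrix ι ι (MonoidAlgebra ℤ G) →+ ℝ where
  toFun M := ∑ i, ((M i i).coeff 1 : ℝ)
  map_zero' := by simp
  map_add' M N := by
    simp [Finset.sum_add_distrib]

theorem P4 {G : Type} [Group G] {ι : Type} [Fintype ι] [DecidableEq ι]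
    (S : Matrix ι ι (MonoidAlgebra ℤ G)) (ν : Measure ℝ) [IsFiniteMeasure ν] (Λ : ℝ)
    (hΛ : ∀ᵐ x ∂ν, 0 ≤ x ∧ x ≤ Λ)
    (hm : ∀ k : ℕ, ∫ x, x ^ k ∂ν = ∑ i, (((S ^ k) i i).coeff 1 : ℝ)) (a b : ℤ) (k : ℕ) :
    ∫ x, ((a : ℝ) + b * x) ^ k ∂ν =
      ∑ i, ((((a • (1 : Matrix ι ι (MonoidAlgebra ℤ G)) + b • S) ^ k) i i).coeff 1 : ℝ) := by
  have hint : ∀ m : ℕ, Integrable (fun x : ℝ => x ^ m) ν := by
    intro m
    refine Integrable.of_bound (C := (max Λ 0) ^ m) (by fun_prop) ?_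
    filter_upwards [hΛ] with x hx
    rw [norm_pow, Real.norm_eq_abs, abs_of_nonneg hx.1]
    exact pow_le_pow_left₀ hx.1 (le_trans hx.2 (le_max_left _ _)) m
  have h1 : ∀ x : ℝ, ((a : ℝ) + b * x) ^ k =
      ∑ m ∈ range (k + 1), ((b : ℝ) ^ m * (a : ℝ) ^ (k - m) * (k.choose m : ℝ)) * x ^ m := by
    intro x
    rw [add_comm, add_pow]
    refine Finset.sum_congr rfl fun m _ => ?_
    rw [mul_pow]; ring
  have h2 : ∫ x, ((a : ℝ) + b * x) ^ k ∂ν =
      ∑ m ∈ range (k + 1), ((b : ℝ) ^ m * (a : ℝ) ^ (k - m) * (k.choose m : ℝ)) *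
        ∫ x, x ^ m ∂ν := by
    simp_rw [h1]
    rw [integral_finsetSum _ (fun m _ => (hint m).const_mul _)]
    refine Finset.sum_congr rfl fun m _ => ?_
    rw [integral_const_mul]
  have h3 : (a • (1 : Matrix ι ι (MonoidAlgebra ℤ G)) + b • S) ^ k =
      ∑ m ∈ range (k + 1), (b ^ m * a ^ (k - m) * (k.choose m : ℤ)) • S ^ m := by
    rw [add_comm, Commute.add_pow]
    · refine Finset.sum_congr rfl fun m _ => ?_
      rw [smul_pow, smul_pow, one_pow, smul_mul_smul_comm, mul_one,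
        ← nsmul_eq_mul', ← natCast_zsmul, smul_smul]
      congr 1
      ring
    · exact ((Commute.one_right S).smul_right a).smul_left b
  have h4 : ∀ (n : ℤ) (M : Matrix ι ι (MonoidAlgebra ℤ G)),
      trOne G ι (n • M) = (n : ℝ) * trOne G ι M := by
    intro n M
    rw [map_zsmul, zsmul_eq_mul]
  have h5 : ∑ i, ((((a • (1 : Matrix ι ι (MonoidAlgebra ℤ G)) + b • S) ^ k) i i).coeff 1 : ℝ) =
      trOne G ι ((a • (1 : Matrix ι ι (MonoidAlgebra ℤ G)) + b • S) ^ k) := rfl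
  rw [h5, h3, map_sum, h2]
  refine Finset.sum_congr rfl fun m _ => ?_
  rw [h4, hm m]
  push_cast
  rfl

end Pool.Agent.V8H82.FK
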