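import Pool.Agent.V8H82.FK.Lim
import Pool.Agent.V8H82.FK.P2
import Pool.Agent.V8H82.FK.P3
import Pool.Agent.V8H82.FK.P4

set_option autoImplicit false
set_option linter.unusedSectionVars false

/-!
# The limit and the spectral measure of `A A^*`
-/

namespace Pool.Agent.V8H82.FK

open Finset Matrix Filter Topology Pool.Agent.V8H82.DM Pool.Agent.V8H82.HT
open Pool.Agent.Q181.TG (reg tc Cok Far)
open TH6.LF (adj bar)

variable {G : Type} [Group G] {ι : Type} [Fintype ι] [DecidableEq ι]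
  {A : Matrix ι ι (MonoidAlgebra ℤ G)}
  (X : ℕ → Type) [∀ n, Fintype (X n)] [∀ n, Nonempty (X n)] [∀ n, MulAction G (X n)]

/-- the formula for the limit, with the limits of the projections -/
theorem far_full (hX : Far G X) (h : Dom2 A) (hk : KerCond A) :
    ∃ (κ : ι → ℝ) (L : ℝ),
      (∀ i, 0 ≤ κ i ∧ κ i ≤ 1) ∧
      (∀ i, Tendsto (fun n => av (pp (bb A) (cc A) i) (X n)) atTop (𝓝 (κ i))) ∧
      (∀ i (s : ℝ), 0 < s → s ≤ 1 → |κ i - s * green0 (bb A) (cc A) s i| ≤ 8 * Real.sqrt s) ∧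
      (∀ q : ℕ, 2 ≤ q → |L - (logdetA A q + Real.log q * ∑ i, κ i -
          ∑ i, Real.negMulLog (κ i))| ≤ Fintype.card ι * (24 * Real.sqrt (1 / q))) ∧
      Tendsto (fun n => Real.log (tc (Cok (reg (X n) A))) / Fintype.card (X n)) atTop (𝓝 L) := by
  classical
  have h1 := h.row
  have h2 := h.col
  choose κ hκ using fun i => av_far X hX (pp (bb A) (cc A) i) (pp_loc h1 h2 i)
  have hκ0 : ∀ i, 0 ≤ κ i := fun i => by
    refine ge_of_tendsto' (hκ i) fun n => ?_
    unfold av
    exact div_nonneg (Finset.sum_nonneg fun x _ => pp_nonneg i (X n) x) (Nat.cast_nonneg _)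
  have hκ1 : ∀ i, κ i ≤ 1 := fun i => by
    refine le_of_tendsto' (hκ i) fun n => ?_
    unfold av
    have hc : (0 : ℝ) < Fintype.card (X n) := by exact_mod_cast Fintype.card_pos
    rw [div_le_one hc]
    have h3 : ∑ x : X n, pp (bb A) (cc A) i (X n) x ≤ ∑ x : X n, (1 : ℝ) :=
      Finset.sum_le_sum fun x _ => pp_le_one i (X n) x
    simpa using h3
  have hpt : ∀ i (s : ℝ) (K : ℕ), 0 < s → s ≤ 1 → |κ i - ptf (bb A) (cc A) s K i| ≤
        8 * Real.sqrt s + (((cc A : ℕ) : ℝ) / ((cc A : ℕ) + s)) ^ K := fun i s K hs hs1 =>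
    lim_le (hκ i) (pt_far X hX s K i) fun n =>
      av_sub_le _ _ _ (X n) fun x => pp_pt h1 h2 s hs hs1 K i (X n) x
  have hF : ∃ L : ℝ, Tendsto (fun n => Real.log (tc (Cok (reg (X n) A))) /
      Fintype.card (X n)) atTop (𝓝 L) := by
    refine conv_of_approx _ fun ε hε => ?_
    obtain ⟨q, K, hq, h3⟩ := testable h hk ε hε
    exact ⟨fun n => av (dn A q K) (X n), av_far X hX _ (dn_loc h q K), fun n =>
      log_div_sub _ _ _ (X n) (h3 (X n))⟩
  obtain ⟨L, hL⟩ := hF
  have hmain : ∀ (q K : ℕ), 2 ≤ q →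
      |L - ∑ i, (gkf A q K i + (Real.log q * κ i + (-1) * eta (κ i)))| ≤
        Fintype.card ι * (24 * Real.sqrt (1 / q) + Er2 A q K) := by
    intro q K hq
    have h3 : Tendsto (fun n => av (dn A q K) (X n)) atTop
        (𝓝 (∑ i, (gkf A q K i + (Real.log q * κ i + (-1) * eta (κ i))))) := by
      have h4 : ∀ n, av (dn A q K) (X n) = ∑ i, (av (gk A q K i) (X n) +
          (Real.log q * av (pp (bb A) (cc A) i) (X n) +
            (-1) * av (G := G) (fun X _ _ x => eta (pp (bb A) (cc A) i X x)) (X n))) := by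
        intro n
        unfold Pool.Agent.V8H82.HT.dn
        rw [av_sum univ (fun i => fun X _ _ x =>
          (gk A q K i X x + (Real.log q * pp (bb A) (cc A) i X x
            + (-1) * eta (pp (bb A) (cc A) i X x))))]
        refine Finset.sum_congr rfl fun i _ => ?_
        rw [av_add (gk A q K i) (fun X _ _ x =>
          (Real.log q * pp (bb A) (cc A) i X x + (-1) * eta (pp (bb A) (cc A) i X x))),
          av_add (fun X _ _ x => Real.log q * pp (bb A) (cc A) i X x)
            (fun X _ _ x => (-1) * eta (pp (bb A) (cc A) i X x)), av_smul (pp (bb A) (cc A) i),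
          av_smul (fun X _ _ x => eta (pp (bb A) (cc A) i X x))]
      simp only [h4]
      refine tendsto_finsetSum _ fun i _ => (gk_far A X hX q K i).add (((hκ i).const_mul _).add ?_)
      exact (av_comp X hX (pp (bb A) (cc A) i) (pp_loc h1 h2 i) eta eta_uc (κ i) (hκ i)).const_mul _
    refine lim_le hL h3 fun n => log_div_sub _ _ _ (X n) ?_
    exact main_approx h hk q hq K (X n)
  have hc : (0 : ℝ) ≤ (cc A : ℕ) := Nat.cast_nonneg _
  refine ⟨κ, L, fun i => ⟨hκ0 i, hκ1 i⟩, hκ, fun i s hs hs1 => ?_, fun q hq => ?_, hL⟩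
  · have hcs : (0 : ℝ) < (cc A : ℕ) + s := by linarith
    have hsum : Summable fun k : ℕ => ((((bb A) ^ k) i i).coeff 1 : ℝ) /
        (((cc A : ℕ) : ℝ) + s) ^ (k + 1) := by
      have hq : ((cc A : ℕ) : ℝ) / ((cc A : ℕ) + s) < 1 := by
        rw [div_lt_one hcs]
        linarith
      refine Summable.of_norm_bounded
        (g := fun k => (((cc A : ℕ) : ℝ) + s)⁻¹ * (((cc A : ℕ) : ℝ) / ((cc A : ℕ) + s)) ^ k)
        ((summable_geometric_of_lt_one (by positivity) hq).mul_left _) fun k => ?_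
      rw [Real.norm_eq_abs, abs_div,
        abs_of_pos (by positivity : (0 : ℝ) < (((cc A : ℕ) : ℝ) + s) ^ (k + 1)),
        div_le_iff₀ (by positivity), div_pow]
      have h6 : (((cc A : ℕ) : ℝ) + s)⁻¹ * (((cc A : ℕ) : ℝ) ^ k / ((cc A : ℕ) + s) ^ k) *
          ((cc A : ℕ) + s) ^ (k + 1) = ((cc A : ℕ) : ℝ) ^ k := by
        rw [pow_succ]
        field_simp
      rw [h6]
      exact bf_le X hX h1 k i
    have h6 : Tendsto (fun K => ptf (bb A) (cc A) s K i) atTop
        (𝓝 (s * green0 (bb A) (cc A) s i)) := by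
      unfold ptf green0
      refine Tendsto.const_mul s ?_
      refine hsum.hasSum.tendsto_sum_nat.congr fun K => ?_
      refine Finset.sum_congr rfl fun k _ => ?_
      rw [inv_pow, div_eq_inv_mul]
      rfl
    have h7 : Tendsto (fun K => |κ i - ptf (bb A) (cc A) s K i|) atTop
        (𝓝 |κ i - s * green0 (bb A) (cc A) s i|) := (tendsto_const_nhds.sub h6).abs
    have h8 : Tendsto (fun K => 8 * Real.sqrt s + (((cc A : ℕ) : ℝ) / ((cc A : ℕ) + s)) ^ K) atTop
        (𝓝 (8 * Real.sqrt s)) := by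
      simpa using (pow_tendsto (cc A) s hs).const_add (8 * Real.sqrt s)
    exact le_of_tendsto_of_tendsto' h7 h8 fun K => hpt i s K hs hs1
  · have hC : (1 : ℝ) ≤ ((ct A q : ℕ) : ℝ) := by exact_mod_cast ct_pos A q
    set C : ℝ := ((ct A q : ℕ) : ℝ) with hCdef
    have hsum : ∀ i, Summable fun k : ℕ => ((((dt A q) ^ (k + 1)) i i).coeff 1 : ℝ) /
        (((k : ℝ) + 1) * C ^ (k + 1)) := by
      intro i
      have hq1 : (C - 1) / C < 1 := by
        rw [div_lt_one (by linarith)]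
        linarith
      have hq0 : 0 ≤ (C - 1) / C := div_nonneg (by linarith) (by linarith)
      refine Summable.of_norm_bounded
        (g := fun k => ((C - 1) / C) * ((C - 1) / C) ^ k)
        ((summable_geometric_of_lt_one hq0 hq1).mul_left _) fun k => ?_
      rw [Real.norm_eq_abs, abs_div,
        abs_of_pos (by positivity : (0 : ℝ) < ((k : ℝ) + 1) * C ^ (k + 1)),
        div_le_iff₀ (by positivity), div_pow]
      have h6 : ((C - 1) / C) * ((C - 1) ^ k / C ^ k) *
          (((k : ℝ) + 1) * C ^ (k + 1)) = (k + 1) * (C - 1) ^ (k + 1) := by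
        field_simp
        ring
      rw [h6]
      have h7 := bf_le2 X hX h hk q (k + 1) i
      have h8 : (0 : ℝ) ≤ (C - 1) ^ (k + 1) := pow_nonneg (by linarith) _
      have h9 : (0 : ℝ) ≤ k := Nat.cast_nonneg k
      have h10 : |((((dt A q) ^ (k + 1)) i i).coeff 1 : ℝ)| ≤ (C - 1) ^ (k + 1) := h7
      nlinarith
    have h6 : Tendsto (fun K => ∑ i, (gkf A q K i + (Real.log q * κ i + (-1) * eta (κ i))))
        atTop (𝓝 (logdetA A q + Real.log q * ∑ i, κ i - ∑ i, Real.negMulLog (κ i))) := by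
      have h7 : logdetA A q + Real.log q * ∑ i, κ i - ∑ i, Real.negMulLog (κ i) =
          ∑ i, (((1 / 2 * Real.log (ct A q) - Real.log q) + (-(1 / 2)) *
            ∑' k : ℕ, ((((dt A q) ^ (k + 1)) i i).coeff 1 : ℝ) / (((k : ℝ) + 1) * C ^ (k + 1))) +
              (Real.log q * κ i + (-1) * eta (κ i))) := by
        unfold logdetA
        rw [Finset.mul_sum, ← Finset.sum_add_distrib, ← Finset.sum_sub_distrib]
        refine Finset.sum_congr rfl fun i _ => ?_
        rw [eta_eq _ (hκ0 i) (hκ1 i)]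
        ring
      rw [h7]
      refine tendsto_finsetSum _ fun i _ => Tendsto.add_const _ ?_
      unfold gkf
      refine Tendsto.const_add _ (Tendsto.const_mul _ ?_)
      refine (hsum i).hasSum.tendsto_sum_nat.congr fun K => ?_
      refine Finset.sum_congr rfl fun k _ => ?_
      rw [div_eq_inv_mul]
      rfl
    have h7 := (tendsto_const_nhds (x := L)).sub h6 |>.abs
    have h8 : Tendsto (fun K => (Fintype.card ι : ℝ) * (24 * Real.sqrt (1 / (q : ℝ)) + Er2 A q K))
        atTop (𝓝 (Fintype.card ι * (24 * Real.sqrt (1 / (q : ℝ))))) := by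
      have h9 := ((Er2_tendsto A q).const_add (24 * Real.sqrt (1 / (q : ℝ)))).const_mul
        (Fintype.card ι : ℝ)
      rw [add_zero] at h9
      exact h9
    exact le_of_tendsto_of_tendsto' h7 h8 fun K => hmain q K hq


variable (A) in
/-- the power series of half of the logarithm of the Fuglede-Kadison determinant of
`A A^* + 1 / q ^ 2` -/
noncomputable def F2 (q C : ℕ) : ℝ :=
  1 / 2 * ((Fintype.card ι : ℝ) * (Real.log C - 2 * Real.log q) -
    ∑' k : ℕ, (∑ i, ((((d2 A q C) ^ (k + 1)) i i).coeff 1 : ℝ)) / (((k : ℝ) + 1) * (C : ℝ) ^ (k + 1)))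

theorem bf_le3 (hX : Far G X) (q C : ℕ) (hC : 1 ≤ C) (hb : Bd A q C) (k : ℕ) (i : ι) :
    |bf (d2 A q C) k i| ≤ ((C : ℝ) - 1) ^ k := by
  classical
  refine le_of_tendsto' (bk_far X hX k i).abs fun n => ?_
  have hrow : ∀ y, ∑ z, |m2 (reg (X n) A) q y z| ≤ C := by
    rw [← reg_t2]
    exact reg_row (X n) _ _ hb.1
  have hcol : ∀ y, ∑ z, |m2 (reg (X n) A) q z y| ≤ C := by
    rw [← reg_t2]
    exact reg_col (X n) _ _ hb.2
  have h2 := av_sub_le (bk (d2 A q C) k i) (fun _ _ _ _ => 0) (((C : ℝ) - 1) ^ k) (X n)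
    (fun x => by
      rw [sub_zero]
      have h3 := Pool.Agent.V8H36.LS.diag_bound (cB (m2 (reg (X n) A) q) C)
        (c2_symm _ q C) C hC (c2_low _ q C hrow hcol) (c2_up _ q C) k (x, i)
      rw [← reg_d2] at h3
      exact h3)
  rw [av_const, sub_zero] at h2
  exact h2

theorem g2_far (hX : Far G X) (q C K : ℕ) (i : ι) :
    Tendsto (fun n => av (g2 A q C K i) (X n)) atTop (𝓝 (g2f A q C K i)) := by
  have h1 : ∀ n, av (g2 A q C K i) (X n) = (1 / 2 * Real.log C - Real.log q)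
      + (- (1 / 2)) * ∑ k ∈ range K, (((k : ℝ) + 1) * (C : ℝ) ^ (k + 1))⁻¹ *
        av (bk (d2 A q C) (k + 1) i) (X n) := by
    intro n
    unfold g2
    rw [av_add (fun X _ _ x => (1 / 2 * Real.log C - Real.log q)) (fun X _ _ x =>
      (- (1 / 2)) * ∑ k ∈ range K, (((k : ℝ) + 1) * (C : ℝ) ^ (k + 1))⁻¹ *
        bk (d2 A q C) (k + 1) i X x), av_const,
      av_smul (fun X _ _ x => ∑ k ∈ range K, (((k : ℝ) + 1) * (C : ℝ) ^ (k + 1))⁻¹ *
        bk (d2 A q C) (k + 1) i X x),
      av_sum (range K) (fun k => fun X _ _ x => (((k : ℝ) + 1) * (C : ℝ) ^ (k + 1))⁻¹ *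
        bk (d2 A q C) (k + 1) i X x)]
    congr 2
    exact Finset.sum_congr rfl fun k _ => av_smul _ _ _
  simp only [h1]
  unfold g2f
  exact ((tendsto_finsetSum _ fun k _ => (bk_far X hX (k + 1) i).const_mul _).const_mul
    (-(1 / 2))).const_add _

/-- the limit and the determinants of `A A^* + 1 / q ^ 2` -/
theorem far2 (hX : Far G X) (h : Dom2 A) (hk : KerCond A) (κ : ι → ℝ) (L : ℝ)
    (hκ01 : ∀ i, 0 ≤ κ i ∧ κ i ≤ 1)
    (hκ : ∀ i, Tendsto (fun n => av (pp (bb A) (cc A) i) (X n)) atTop (𝓝 (κ i)))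
    (hL : Tendsto (fun n => Real.log (tc (Cok (reg (X n) A))) / Fintype.card (X n)) atTop (𝓝 L))
    (q : ℕ) (hq : 2 ≤ q) (C : ℕ) (hC1 : 1 ≤ C) (hb : Bd A q C) :
    |L - (F2 A q C + Real.log q * ∑ i, κ i - ∑ i, Real.negMulLog (κ i))| ≤
      Fintype.card ι * (48 * Real.sqrt (1 / q)) := by
  classical
  have h1 := h.row
  have h2 := h.col
  have hmain : ∀ (K : ℕ),
      |L - ∑ i, (g2f A q C K i + (Real.log q * κ i + (-1) * eta (κ i)))| ≤
        Fintype.card ι * (48 * Real.sqrt (1 / q) + Er3 C K) := by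
    intro K
    have h3 : Tendsto (fun n => av (G := G) (fun X _ _ x => ∑ i, (g2 A q C K i X x + (Real.log q *
        pp (bb A) (cc A) i X x + (-1) * eta (pp (bb A) (cc A) i X x)))) (X n)) atTop
        (𝓝 (∑ i, (g2f A q C K i + (Real.log q * κ i + (-1) * eta (κ i))))) := by
      have h4 : ∀ n, av (G := G) (fun X _ _ x => ∑ i, (g2 A q C K i X x + (Real.log q *
        pp (bb A) (cc A) i X x + (-1) * eta (pp (bb A) (cc A) i X x)))) (X n) =
          ∑ i, (av (g2 A q C K i) (X n) +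
          (Real.log q * av (pp (bb A) (cc A) i) (X n) +
            (-1) * av (G := G) (fun X _ _ x => eta (pp (bb A) (cc A) i X x)) (X n))) := by
        intro n
        rw [av_sum univ (fun i => fun X _ _ x =>
          (g2 A q C K i X x + (Real.log q * pp (bb A) (cc A) i X x
            + (-1) * eta (pp (bb A) (cc A) i X x))))]
        refine Finset.sum_congr rfl fun i _ => ?_
        rw [av_add (g2 A q C K i) (fun X _ _ x =>
          (Real.log q * pp (bb A) (cc A) i X x + (-1) * eta (pp (bb A) (cc A) i X x))),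
          av_add (fun X _ _ x => Real.log q * pp (bb A) (cc A) i X x)
            (fun X _ _ x => (-1) * eta (pp (bb A) (cc A) i X x)), av_smul (pp (bb A) (cc A) i),
          av_smul (fun X _ _ x => eta (pp (bb A) (cc A) i X x))]
      simp only [h4]
      refine tendsto_finsetSum _ fun i _ => (g2_far X hX q C K i).add (((hκ i).const_mul _).add ?_)
      exact (av_comp X hX (pp (bb A) (cc A) i) (pp_loc h1 h2 i) eta eta_uc (κ i) (hκ i)).const_mul _
    refine lim_le hL h3 fun n => log_div_sub _ _ _ (X n) ?_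
    exact main2 h hk q hq C hC1 hb K (X n)
  have hC : (1 : ℝ) ≤ (C : ℝ) := by exact_mod_cast hC1
  have hsum : ∀ i, Summable fun k : ℕ => ((((d2 A q C) ^ (k + 1)) i i).coeff 1 : ℝ) /
      (((k : ℝ) + 1) * (C : ℝ) ^ (k + 1)) := by
    intro i
    have hq1 : ((C : ℝ) - 1) / C < 1 := by
      rw [div_lt_one (by linarith)]
      linarith
    have hq0 : 0 ≤ ((C : ℝ) - 1) / C := div_nonneg (by linarith) (by linarith)
    refine Summable.of_norm_bounded
      (g := fun k => (((C : ℝ) - 1) / C) * (((C : ℝ) - 1) / C) ^ k)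
      ((summable_geometric_of_lt_one hq0 hq1).mul_left _) fun k => ?_
    rw [Real.norm_eq_abs, abs_div,
      abs_of_pos (by positivity : (0 : ℝ) < ((k : ℝ) + 1) * (C : ℝ) ^ (k + 1)),
      div_le_iff₀ (by positivity), div_pow]
    have h6 : (((C : ℝ) - 1) / C) * (((C : ℝ) - 1) ^ k / (C : ℝ) ^ k) *
        (((k : ℝ) + 1) * (C : ℝ) ^ (k + 1)) = (k + 1) * ((C : ℝ) - 1) ^ (k + 1) := by
      field_simp
      ring
    rw [h6]
    have h7 := bf_le3 X hX q C hC1 hb (k + 1) i
    have h8 : (0 : ℝ) ≤ ((C : ℝ) - 1) ^ (k + 1) := pow_nonneg (by linarith) _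
    have h9 : (0 : ℝ) ≤ k := Nat.cast_nonneg k
    have h10 : |((((d2 A q C) ^ (k + 1)) i i).coeff 1 : ℝ)| ≤ ((C : ℝ) - 1) ^ (k + 1) := h7
    nlinarith
  have h6 : Tendsto (fun K => ∑ i, (g2f A q C K i + (Real.log q * κ i + (-1) * eta (κ i))))
      atTop (𝓝 (F2 A q C + Real.log q * ∑ i, κ i - ∑ i, Real.negMulLog (κ i))) := by
    have h5 : (∑' k : ℕ, (∑ i, ((((d2 A q C) ^ (k + 1)) i i).coeff 1 : ℝ)) /
        (((k : ℝ) + 1) * (C : ℝ) ^ (k + 1))) = ∑ i, ∑' k : ℕ,
          ((((d2 A q C) ^ (k + 1)) i i).coeff 1 : ℝ) / (((k : ℝ) + 1) * (C : ℝ) ^ (k + 1)) := by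
      rw [← Summable.tsum_finsetSum fun i _ => hsum i]
      refine tsum_congr fun k => ?_
      rw [Finset.sum_div]
    have h7 : F2 A q C + Real.log q * ∑ i, κ i - ∑ i, Real.negMulLog (κ i) =
        ∑ i, (((1 / 2 * Real.log C - Real.log q) + (-(1 / 2)) *
          ∑' k : ℕ, ((((d2 A q C) ^ (k + 1)) i i).coeff 1 : ℝ) /
            (((k : ℝ) + 1) * (C : ℝ) ^ (k + 1))) +
            (Real.log q * κ i + (-1) * eta (κ i))) := by
      unfold F2
      rw [h5, Finset.sum_add_distrib, Finset.sum_add_distrib, Finset.sum_add_distrib,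
        Finset.sum_const, nsmul_eq_mul, Finset.card_univ, ← Finset.mul_sum, ← Finset.mul_sum,
        ← Finset.mul_sum]
      have h8 : ∀ i, eta (κ i) = Real.negMulLog (κ i) := fun i =>
        eta_eq _ (hκ01 i).1 (hκ01 i).2
      simp only [h8]
      ring
    rw [h7]
    refine tendsto_finsetSum _ fun i _ => Tendsto.add_const _ ?_
    unfold g2f
    refine Tendsto.const_add _ (Tendsto.const_mul _ ?_)
    refine (hsum i).hasSum.tendsto_sum_nat.congr fun K => ?_
    refine Finset.sum_congr rfl fun k _ => ?_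
    rw [div_eq_inv_mul]
    rfl
  have h7 := (tendsto_const_nhds (x := L)).sub h6 |>.abs
  have h8 : Tendsto (fun K => (Fintype.card ι : ℝ) * (48 * Real.sqrt (1 / (q : ℝ)) + Er3 C K))
      atTop (𝓝 (Fintype.card ι * (48 * Real.sqrt (1 / (q : ℝ))))) := by
    have h9 := ((Er3_tendsto C hC1).const_add (48 * Real.sqrt (1 / (q : ℝ)))).const_mul
      (Fintype.card ι : ℝ)
    rw [add_zero] at h9
    exact h9
  exact le_of_tendsto_of_tendsto' h7 h8 fun K => hmain K

end Pool.Agent.V8H82.FK
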