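import Pool.Agent.V8H82.FK.Main

set_option autoImplicit false
set_option linter.unusedSectionVars false

/-!
# The Fuglede-Kadison determinant as an integral over the spectral measure
-/

namespace Pool.Agent.V8H82.FK

open Finset Matrix Filter Topology MeasureTheory Pool.Agent.V8H82.DM Pool.Agent.V8H82.HT
open Pool.Agent.Q181.TG (reg tc Cok Far)
open TH6.LF (adj bar)

variable {G : Type} [Group G] {ι : Type} [Fintype ι] [DecidableEq ι]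

/-- `ν` is the spectral measure of the positive matrix `S` over `ℤ[G]`: a finite measure on a compact
interval `[0, Λ]` whose moments are the von Neumann traces of the powers of `S`. -/
def IsSpectral (S : Matrix ι ι (MonoidAlgebra ℤ G)) (ν : Measure ℝ) : Prop :=
  IsFiniteMeasure ν ∧ (∃ Λ : ℝ, ∀ᵐ x ∂ν, 0 ≤ x ∧ x ≤ Λ) ∧
    ∀ k : ℕ, ∫ x, x ^ k ∂ν = ∑ i, (((S ^ k) i i).coeff 1 : ℝ)

variable {A : Matrix ι ι (MonoidAlgebra ℤ G)}

theorem d2_eq (q C : ℕ) : d2 A q C = ((C : ℤ) - 1) • (1 : Matrix ι ι (MonoidAlgebra ℤ G)) +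
    (-((q : ℤ) ^ 2)) • (A * adj A) := by
  unfold d2 t2
  have h1 : ((q : ℤ) ^ 2) • (A * adj A) = (q ^ 2) • (A * adj A) := by
    rw [← Nat.cast_pow, natCast_zsmul]
  rw [sub_smul, one_smul, neg_smul, natCast_zsmul, h1]
  abel

theorem F2_eq (ν : Measure ℝ) [IsFiniteMeasure ν] (Λ : ℝ) (hΛ : ∀ᵐ x ∂ν, 0 ≤ x ∧ x ≤ Λ)
    (hm : ∀ k : ℕ, ∫ x, x ^ k ∂ν = ∑ i, ((((A * adj A) ^ k) i i).coeff 1 : ℝ)) (q C : ℕ)
    (hq : 1 ≤ q) (hC1 : 1 ≤ C) (hC : (q : ℝ) ^ 2 * Λ + 1 ≤ C) :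
    F2 A q C = 1 / 2 * ∫ x, Real.log (x + 1 / (q : ℝ) ^ 2) ∂ν := by
  have h0 : (ν Set.univ).toReal = Fintype.card ι := by
    have h1 := hm 0
    simp only [pow_zero, Matrix.one_apply_eq, MonoidAlgebra.one_def] at h1
    simpa [Measure.real] using h1
  have h4 : ∀ k : ℕ, ∫ x, ((C : ℝ) - 1 - (q : ℝ) ^ 2 * x) ^ (k + 1) ∂ν =
      ∑ i, ((((d2 A q C) ^ (k + 1)) i i).coeff 1 : ℝ) := by
    intro k
    have h5 := P4 (A * adj A) ν Λ hΛ hm ((C : ℤ) - 1) (-((q : ℤ) ^ 2)) (k + 1)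
    rw [← d2_eq] at h5
    rw [← h5]
    congr 1
    ext x
    push_cast
    ring
  rw [P3 ν Λ hΛ q C hq hC1 hC, h0]
  unfold F2
  simp only [h4]

theorem exists_C (A : Matrix ι ι (MonoidAlgebra ℤ G)) (q : ℕ) (Λ : ℝ) :
    ∃ C : ℕ, 1 ≤ C ∧ (q : ℝ) ^ 2 * Λ + 1 ≤ C ∧ Bd A q C := by
  set N : ℕ := (∑ i, ∑ j, nm (t2 A q i j)).natAbs with hN
  refine ⟨N + ⌈(q : ℝ) ^ 2 * Λ⌉₊ + 1, by omega, ?_, ?_, ?_⟩
  · have h1 := Nat.le_ceil ((q : ℝ) ^ 2 * Λ)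
    push_cast
    have h2 : (0 : ℝ) ≤ N := Nat.cast_nonneg N
    linarith
  · intro i
    have h1 : ∑ j, nm (t2 A q i j) ≤ ∑ i, ∑ j, nm (t2 A q i j) :=
      Finset.single_le_sum (f := fun i => ∑ j, nm (t2 A q i j))
        (fun i _ => Finset.sum_nonneg fun j _ => nm_nonneg _) (mem_univ i)
    have h2 := le_abs_self (∑ i, ∑ j, nm (t2 A q i j))
    have h3 : (N : ℤ) = |∑ i, ∑ j, nm (t2 A q i j)| := by
      rw [hN, Int.natCast_natAbs]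
    push_cast
    have h4 : (0 : ℤ) ≤ (⌈(q : ℝ) ^ 2 * Λ⌉₊ : ℤ) := Int.natCast_nonneg _
    linarith
  · intro j
    have h1 : ∑ i, nm (t2 A q i j) ≤ ∑ j, ∑ i, nm (t2 A q i j) :=
      Finset.single_le_sum (f := fun j => ∑ i, nm (t2 A q i j))
        (fun i _ => Finset.sum_nonneg fun j _ => nm_nonneg _) (mem_univ j)
    rw [Finset.sum_comm] at h1
    have h2 := le_abs_self (∑ i, ∑ j, nm (t2 A q i j))
    have h3 : (N : ℤ) = |∑ i, ∑ j, nm (t2 A q i j)| := by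
      rw [hN, Int.natCast_natAbs]
    push_cast
    have h4 : (0 : ℤ) ≤ (⌈(q : ℝ) ^ 2 * Λ⌉₊ : ℤ) := Int.natCast_nonneg _
    linarith

/-- **the limit is the logarithm of the Fuglede-Kadison determinant, plus an entropy term** -/
theorem spectral (X : ℕ → Type) [∀ n, Fintype (X n)] [∀ n, Nonempty (X n)]
    [∀ n, MulAction G (X n)] (hX : Far G X) (h : Dom2 A) (hk : KerCond A) :
    ∃ (κ : ι → ℝ) (L : ℝ), (∀ i, 0 ≤ κ i ∧ κ i ≤ 1) ∧
      (∀ i (s : ℝ), 0 < s → s ≤ 1 → |κ i - s * green0 (bb A) (cc A) s i| ≤ 8 * Real.sqrt s) ∧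
      (∀ q : ℕ, 2 ≤ q → |L - (logdetA A q + Real.log q * ∑ i, κ i -
          ∑ i, Real.negMulLog (κ i))| ≤ Fintype.card ι * (24 * Real.sqrt (1 / q))) ∧
      Tendsto (fun n => Real.log (tc (Cok (reg (X n) A))) / Fintype.card (X n)) atTop (𝓝 L) ∧
      ∀ ν : Measure ℝ, IsSpectral (A * adj A) ν → (ν {0}).toReal = ∑ i, κ i ∧
        IntegrableOn Real.log (Set.Ioi 0) ν ∧
        L = 1 / 2 * (∫ x in Set.Ioi 0, Real.log x ∂ν) - ∑ i, Real.negMulLog (κ i) := by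
  obtain ⟨κ, L, h1, h2, h3, h4, h5⟩ := far_full X hX h hk
  refine ⟨κ, L, h1, h3, h4, h5, fun ν hν => ?_⟩
  obtain ⟨hfin, ⟨Λ, hΛ⟩, hm⟩ := hν
  have := hfin
  have h6 : ∀ q : ℕ, 2 ≤ q → |L - (1 / 2 * ∫ x, Real.log (x + 1 / (q : ℝ) ^ 2) ∂ν +
      Real.log q * ∑ i, κ i - ∑ i, Real.negMulLog (κ i))| ≤
      Fintype.card ι * (48 * Real.sqrt (1 / q)) := by
    intro q hq
    obtain ⟨C, hC1, hC2, hb⟩ := exists_C A q Λ
    have h7 := far2 X hX h hk κ L h1 h2 h5 q hq C hC1 hb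
    rw [F2_eq ν Λ hΛ hm q C (by omega) hC1 hC2] at h7
    exact h7
  have h7 : Tendsto (fun q : ℕ => 1 / 2 * ∫ x, Real.log (x + 1 / (q : ℝ) ^ 2) ∂ν +
      Real.log q * ∑ i, κ i) atTop (𝓝 (L + ∑ i, Real.negMulLog (κ i))) := by
    rw [tendsto_iff_dist_tendsto_zero]
    have h8 : Tendsto (fun q : ℕ => (Fintype.card ι : ℝ) * (48 * Real.sqrt (1 / (q : ℝ))))
        atTop (𝓝 0) := by
      have h9 : Tendsto (fun q : ℕ => Real.sqrt (1 / (q : ℝ))) atTop (𝓝 (Real.sqrt 0)) :=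
        (Real.continuous_sqrt.tendsto 0).comp tendsto_one_div_atTop_nhds_zero_nat
      have h10 := (h9.const_mul 48).const_mul (Fintype.card ι : ℝ)
      rw [Real.sqrt_zero, mul_zero, mul_zero] at h10
      exact h10
    refine squeeze_zero' (Eventually.of_forall fun q => dist_nonneg) ?_ h8
    filter_upwards [eventually_ge_atTop 2] with q hq
    rw [Real.dist_eq, abs_sub_comm]
    have h9 := h6 q hq
    have h10 : L + ∑ i, Real.negMulLog (κ i) - (1 / 2 * ∫ x, Real.log (x + 1 / (q : ℝ) ^ 2) ∂ν +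
        Real.log q * ∑ i, κ i) = L - (1 / 2 * ∫ x, Real.log (x + 1 / (q : ℝ) ^ 2) ∂ν +
      Real.log q * ∑ i, κ i - ∑ i, Real.negMulLog (κ i)) := by ring
    rw [h10]
    exact h9
  obtain ⟨g1, g2, g3⟩ := P2 ν Λ hΛ (∑ i, κ i) (L + ∑ i, Real.negMulLog (κ i)) h7
  exact ⟨g1, g2, by linarith⟩

end Pool.Agent.V8H82.FK
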